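import Mathlib

namespace Pool.Agent.R579.Orn

/-- `U` is an ornament of the directed graph `D` at the vertex `v`: `v ∈ U`, and every `u ∈ U` has a
directed path to `v` in the subgraph of `D` induced by `U`. -/
def IsOrnament {V : Type} (D : Digraph V) (v : V) (U : Set V) : Prop :=
  v ∈ U ∧ ∀ u ∈ U, Relation.ReflTransGen (fun a b => a ∈ U ∧ b ∈ U ∧ D.Adj a b) u v

/-- `O` is an ornamentation of `D`: each `O v` is an ornament at `v`, and the ornaments are
nested: `u ∈ O v` implies `O u ⊆ O v`. -/
def IsOrnamentation {V : Type} (D : Digraph V) (O : V → Set V) : Prop :=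
  (∀ v, IsOrnament D v (O v)) ∧ ∀ u v, u ∈ O v → O u ⊆ O v

/-- The set `Orn(D)` of all ornamentations of `D`. -/
def Ornamentations {V : Type} (D : Digraph V) : Type := {O : V → Set V // IsOrnamentation D O}

/-- `[u, v]` is an edge of the polytope `P`: `u ≠ v` are vertices (extreme points) of `P` and the
segment `[u, v]` is a face (an exposed subset) of `P`. -/
def IsPolytopeEdge {n : ℕ} (P : Set (EuclideanSpace ℝ (Fin n))) (u v : EuclideanSpace ℝ (Fin n)) :
    Prop :=
  u ∈ P.extremePoints ℝ ∧ v ∈ P.extremePoints ℝ ∧ u ≠ v ∧ IsExposed ℝ P (segment ℝ u v)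

/-- `Orn(D)`, ordered componentwise, is isomorphic to the transitive closure of the graph of the
polytope `P = conv S` oriented in the direction of the linear functional `c`, which is
nonconstant on the edges of `P`. -/
def RealizedBy {V : Type} (D : Digraph V) {n : ℕ} (S : Finset (EuclideanSpace ℝ (Fin n)))
    (c : EuclideanSpace ℝ (Fin n) →ₗ[ℝ] ℝ) : Prop :=
  (∀ u v, IsPolytopeEdge (convexHull ℝ (S : Set (EuclideanSpace ℝ (Fin n)))) u v → c u ≠ c v) ∧
  ∃ e : Ornamentations D ≃ (convexHull ℝ (S : Set (EuclideanSpace ℝ (Fin n)))).extremePoints ℝ,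
    ∀ O O' : Ornamentations D, (∀ v, O.1 v ⊆ O'.1 v) ↔
      Relation.ReflTransGen
        (fun x y => IsPolytopeEdge (convexHull ℝ (S : Set (EuclideanSpace ℝ (Fin n)))) x y ∧
          c x < c y) (e O : EuclideanSpace ℝ (Fin n)) (e O' : EuclideanSpace ℝ (Fin n))

/-- The complete directed graph on three vertices (all six arcs). -/
def K3 : Digraph (Fin 3) := ⟨fun u v => u ≠ v⟩

end Pool.Agent.R579.Orn
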