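import Mathlib
import Pool.Agent.R579.Orn.Defs

namespace Pool.Agent.R579.Orn

abbrev Mat := Fin 3 → Fin 3 → Bool

def Good (M : Mat) : Prop := (∀ i, M i i = true) ∧ ∀ i j k, M i j = true → M j k = true → M i k = true
instance : DecidablePred Good := fun M => by unfold Good; infer_instance

def mle (M N : Mat) : Prop := ∀ i j, M i j = true → N i j = true
instance : DecidableRel mle := fun M N => by unfold mle; infer_instance

def tt : Mat := fun _ _ => true
def zz : Mat := fun a v => decide (a = v)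
def pp : Mat := fun a v => decide (a = v ∨ (a = 1 ∧ v = 2))
def qq : Mat := fun a v => decide (a = v ∨ (a = 2 ∧ v = 1))
def uu (i : Fin 3) : Mat := fun a v => decide (v ≠ i ∨ a = i)
def ww (j : Fin 3) : Mat := fun a v => decide (v = j ∨ a ≠ j)
def mm (i j : Fin 3) : Mat := fun a v => uu i a v && ww j a v

set_option maxRecDepth 100000 in
theorem fact1 : ∀ i j : Fin 3, ∀ M : Mat, Good M → mle (mm i j) M →
    M = mm i j ∨ M = uu i ∨ M = ww j ∨ M = tt := by decide

set_option maxRecDepth 100000 in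
theorem fact2' : ∀ i j : Fin 3, ∀ M : Mat, Good M → (mle (uu i) M ∧ mle (ww j) M) → M = tt := by
  decide

theorem fact2 (i j : Fin 3) (M : Mat) (h : Good M) (h1 : mle (uu i) M) (h2 : mle (ww j) M) :
    M = tt := fact2' i j M h ⟨h1, h2⟩

set_option maxRecDepth 100000 in
theorem fact3' : ∀ M : Mat, (Good M ∧ mle M (mm 0 0)) →
    (M = mm 0 0 ∨ M = zz ∨ M = pp ∨ M = qq) := by decide

theorem fact3 (M : Mat) (h : Good M) (h1 : mle M (mm 0 0) ∨ mle (mm 0 0) M) :
    M = mm 0 0 ∨ M = zz ∨ M = tt ∨ M = pp ∨ M = qq ∨ M = uu 0 ∨ M = ww 0 := by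
  rcases h1 with h1 | h1
  · rcases fact3' M ⟨h, h1⟩ with h | h | h | h <;> simp [h]
  · rcases fact1 0 0 M h h1 with h | h | h | h <;> simp [h]

set_option maxRecDepth 100000 in
theorem fact4' : ∀ M : Mat, Good M → (mle M pp ∧ mle M qq) → M = zz := by decide

theorem fact4 (M : Mat) (h : Good M) (h1 : mle M pp) (h2 : mle M qq) : M = zz :=
  fact4' M h ⟨h1, h2⟩

theorem good_tt : Good tt := by decide
theorem good_zz : Good zz := by decide
theorem good_pp : Good pp := by decide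
theorem good_qq : Good qq := by decide
theorem good_uu : ∀ i, Good (uu i) := by decide
theorem good_ww : ∀ i, Good (ww i) := by decide
theorem good_mm : ∀ i j, Good (mm i j) := by decide

theorem d1 : ∀ i i', i ≠ i' → uu i ≠ uu i' := by decide
theorem d2 : ∀ i i', i ≠ i' → ww i ≠ ww i' := by decide
theorem d3 : ∀ i j, uu i ≠ ww j := by decide
theorem d4 : ∀ i k l, uu i ≠ mm k l := by decide
theorem d5 : ∀ i k l, ww i ≠ mm k l := by decide
theorem d6 : ∀ i j i' j', i ≠ i' → mm i j ≠ mm i' j' := by decide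
theorem d7 : ∀ i, uu i ≠ tt := by decide
theorem d8 : ∀ i, ww i ≠ tt := by decide
theorem d9 : ∀ i j, mm i j ≠ tt := by decide
theorem d10 : ∀ i j, mle (mm i j) (uu i) := by decide
theorem d11 : ∀ i j, mle (mm i j) (ww j) := by decide
theorem d12 : ∀ i j, ¬ mle (ww j) (uu i) := by decide
theorem d13 : ∀ i j, ¬ mle (uu i) (ww j) := by decide
theorem d14 : ∀ i, ¬ mle tt (uu i) := by decide
theorem d15 : ∀ i, ¬ mle tt (ww i) := by decide
theorem d16 : zz ≠ mm 0 0 ∧ tt ≠ mm 0 0 ∧ pp ≠ mm 0 0 ∧ qq ≠ mm 0 0 ∧ uu 0 ≠ mm 0 0 ∧ ww 0 ≠ mm 0 0 := by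
  decide

instance instPO {V : Type} (D : Digraph V) : PartialOrder (Ornamentations D) :=
  Subtype.partialOrder _

open Classical in
noncomputable def toM (O : Ornamentations K3) : Mat := fun u v => decide (u ∈ O.1 v)

lemma toM_apply (O : Ornamentations K3) (u v : Fin 3) : toM O u v = true ↔ u ∈ O.1 v := by
  simp [toM]

lemma toM_inj : Function.Injective toM := by
  intro O O' h
  apply Subtype.ext
  funext v
  ext u
  rw [← toM_apply, ← toM_apply, h]

lemma toM_good (O : Ornamentations K3) : Good (toM O) := by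
  refine ⟨fun i => ?_, fun i j k hij hjk => ?_⟩
  · rw [toM_apply]; exact (O.2.1 i).1
  · rw [toM_apply] at *
    exact O.2.2 j k hjk hij

lemma le_iff_mle (O O' : Ornamentations K3) : O ≤ O' ↔ mle (toM O) (toM O') := by
  constructor
  · intro h i j hij
    rw [toM_apply] at *
    exact h j hij
  · intro h v u hu
    have := h u v ((toM_apply _ _ _).2 hu)
    exact (toM_apply _ _ _).1 this

def ofM (M : Mat) (hM : Good M) : Ornamentations K3 :=
  ⟨fun v => {u | M u v = true}, by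
    refine ⟨fun v => ⟨hM.1 v, fun u hu => ?_⟩, fun u v huv a ha => hM.2 a u v ha huv⟩
    by_cases h : u = v
    · rw [h]
    · exact Relation.ReflTransGen.single ⟨hu, hM.1 v, h⟩⟩

lemma toM_ofM (M : Mat) (hM : Good M) : toM (ofM M hM) = M := by
  funext u v
  have : toM (ofM M hM) u v = true ↔ M u v = true := toM_apply _ _ _
  rcases h : M u v
  · rw [h] at this
    simpa using this
  · rw [h] at this
    simpa using this

lemma eq_ofM {O : Ornamentations K3} {M : Mat} (hM : Good M) (h : toM O = M) : O = ofM M hM := by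
  apply toM_inj
  rw [h, toM_ofM]

lemma ofM_ne {M N : Mat} (hM : Good M) (hN : Good N) (h : M ≠ N) : ofM M hM ≠ ofM N hN := by
  intro hh
  apply h
  rw [← toM_ofM M hM, ← toM_ofM N hN, hh]

def U (i : Fin 3) : Ornamentations K3 := ofM (uu i) (good_uu i)
def W (i : Fin 3) : Ornamentations K3 := ofM (ww i) (good_ww i)
def MM (i j : Fin 3) : Ornamentations K3 := ofM (mm i j) (good_mm i j)
def T : Ornamentations K3 := ofM tt good_tt
def Z : Ornamentations K3 := ofM zz good_zz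
def PP : Ornamentations K3 := ofM pp good_pp
def QQ : Ornamentations K3 := ofM qq good_qq

lemma hIci (i j : Fin 3) (d : Ornamentations K3) (h : MM i j ≤ d) :
    d = MM i j ∨ d = U i ∨ d = W j ∨ d = T := by
  rw [le_iff_mle, MM, toM_ofM] at h
  rcases fact1 i j (toM d) (toM_good d) h with h1 | h1 | h1 | h1
  · exact Or.inl (eq_ofM _ h1)
  · exact Or.inr (Or.inl (eq_ofM _ h1))
  · exact Or.inr (Or.inr (Or.inl (eq_ofM _ h1)))
  · exact Or.inr (Or.inr (Or.inr (eq_ofM _ h1)))

lemma hsup (i j : Fin 3) (d : Ornamentations K3) (h : U i ≤ d) (h' : W j ≤ d) : d = T := by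
  rw [le_iff_mle, U, toM_ofM] at h
  rw [le_iff_mle, W, toM_ofM] at h'
  exact eq_ofM _ (fact2 i j (toM d) (toM_good d) h h')

lemma hinf (d : Ornamentations K3) (h : d ≤ PP) (h' : d ≤ QQ) : d = Z := by
  rw [le_iff_mle, PP, toM_ofM] at h
  rw [le_iff_mle, QQ, toM_ofM] at h'
  exact eq_ofM _ (fact4 (toM d) (toM_good d) h h')

lemma hcomp (d : Ornamentations K3) (h : d ≤ MM 0 0 ∨ MM 0 0 ≤ d) :
    d = MM 0 0 ∨ d = Z ∨ d = T ∨ d = PP ∨ d = QQ ∨ d = U 0 ∨ d = W 0 := by
  rw [le_iff_mle, le_iff_mle, MM, toM_ofM] at h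
  rcases fact3 (toM d) (toM_good d) h with h1 | h1 | h1 | h1 | h1 | h1 | h1
  · exact Or.inl (eq_ofM _ h1)
  · exact Or.inr (Or.inl (eq_ofM _ h1))
  · exact Or.inr (Or.inr (Or.inl (eq_ofM _ h1)))
  · exact Or.inr (Or.inr (Or.inr (Or.inl (eq_ofM _ h1))))
  · exact Or.inr (Or.inr (Or.inr (Or.inr (Or.inl (eq_ofM _ h1)))))
  · exact Or.inr (Or.inr (Or.inr (Or.inr (Or.inr (Or.inl (eq_ofM _ h1))))))
  · exact Or.inr (Or.inr (Or.inr (Or.inr (Or.inr (Or.inr (eq_ofM _ h1))))))

lemma MM_ne_U (i k l : Fin 3) : U i ≠ MM k l := ofM_ne _ _ (d4 i k l)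
lemma MM_ne_W (i k l : Fin 3) : W i ≠ MM k l := ofM_ne _ _ (d5 i k l)

lemma hcu (i j : Fin 3) : MM i j ⋖ U i := by
  refine ⟨lt_of_le_of_ne ?_ (MM_ne_U i i j).symm, fun d h1 h2 => ?_⟩
  · rw [le_iff_mle, MM, U, toM_ofM, toM_ofM]; exact d10 i j
  · rcases hIci i j d h1.le with rfl | rfl | rfl | rfl
    · exact lt_irrefl _ h1
    · exact lt_irrefl _ h2
    · have := h2.le
      rw [le_iff_mle, W, U, toM_ofM, toM_ofM] at this
      exact d12 i j this
    · have := h2.le
      rw [le_iff_mle, T, U, toM_ofM, toM_ofM] at this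
      exact d14 i this

lemma hcw (i j : Fin 3) : MM i j ⋖ W j := by
  refine ⟨lt_of_le_of_ne ?_ (MM_ne_W j i j).symm, fun d h1 h2 => ?_⟩
  · rw [le_iff_mle, MM, W, toM_ofM, toM_ofM]; exact d11 i j
  · rcases hIci i j d h1.le with rfl | rfl | rfl | rfl
    · exact lt_irrefl _ h1
    · have := h2.le
      rw [le_iff_mle, W, U, toM_ofM, toM_ofM] at this
      exact d13 i j this
    · exact lt_irrefl _ h2
    · have := h2.le
      rw [le_iff_mle, T, W, toM_ofM, toM_ofM] at this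
      exact d15 j this

lemma hne (d : Ornamentations K3) (h : d = Z ∨ d = T ∨ d = PP ∨ d = QQ ∨ d = U 0 ∨ d = W 0) :
    d ≠ MM 0 0 := by
  obtain ⟨h1, h2, h3, h4, h5, h6⟩ := d16
  rcases h with rfl | rfl | rfl | rfl | rfl | rfl
  · exact ofM_ne _ _ h1
  · exact ofM_ne _ _ h2
  · exact ofM_ne _ _ h3
  · exact ofM_ne _ _ h4
  · exact ofM_ne _ _ h5
  · exact ofM_ne _ _ h6

end Pool.Agent.R579.Orn
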