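import Mathlib

namespace Pool.Agent.R579.Orn

open Finset

variable {E : Type*} [AddCommGroup E] [Module ℝ E]

/-- `A` is the set of points of `V` lying on a face. -/
def FaceSet (V A : Finset E) : Prop :=
  A ⊆ V ∧ ∃ f : E →ₗ[ℝ] ℝ, ∃ k : ℝ, (∀ v ∈ A, f v = k) ∧ ∀ v ∈ V, v ∉ A → f v < k

/-- every point of `V` is exposed. -/
def Exposed (V : Finset E) : Prop :=
  ∀ x ∈ V, ∃ f : E →ₗ[ℝ] ℝ, ∀ y ∈ V, y ≠ x → f y < f x

lemma eps_exists {α : Type*} (T : Finset α) (a b : α → ℝ) (h : ∀ v ∈ T, a v < 0) :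
    ∃ ε : ℝ, 0 < ε ∧ ∀ v ∈ T, a v + ε * b v < 0 := by
  classical
  induction T using Finset.induction_on with
  | empty => exact ⟨1, one_pos, by simp⟩
  | insert x T hx ih =>
    obtain ⟨ε, hε, h1⟩ := ih (fun v hv => h v (Finset.mem_insert_of_mem hv))
    have hax : a x < 0 := h x (Finset.mem_insert_self _ _)
    -- choose smaller
    refine ⟨min ε (-(a x) / (2 * (|b x| + 1))), lt_min hε (by
      apply div_pos (by linarith) (by positivity)), ?_⟩
    intro v hv
    rcases Finset.mem_insert.1 hv with rfl | hv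
    · have hm : min ε (-(a v) / (2 * (|b v| + 1))) ≤ -(a v) / (2 * (|b v| + 1)) := min_le_right _ _
      have hm0 : 0 < min ε (-(a v) / (2 * (|b v| + 1))) := lt_min hε (by
        apply div_pos (by linarith) (by positivity))
      have hb : b v ≤ |b v| + 1 := by linarith [le_abs_self (b v)]
      have h3 : min ε (-(a v) / (2 * (|b v| + 1))) * b v ≤
          (-(a v) / (2 * (|b v| + 1))) * (|b v| + 1) := by
        calc min ε (-(a v) / (2 * (|b v| + 1))) * b v
            ≤ min ε (-(a v) / (2 * (|b v| + 1))) * (|b v| + 1) :=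
              mul_le_mul_of_nonneg_left hb hm0.le
          _ ≤ _ := mul_le_mul_of_nonneg_right hm (by positivity)
      have h4 : (-(a v) / (2 * (|b v| + 1))) * (|b v| + 1) = -(a v) / 2 := by
        have : |b v| + 1 ≠ 0 := by positivity
        field_simp
      rw [h4] at h3
      linarith
    · have hm : min ε (-(a x) / (2 * (|b x| + 1))) ≤ ε := min_le_left _ _
      have hm0 : 0 < min ε (-(a x) / (2 * (|b x| + 1))) := lt_min hε (by
        apply div_pos (by linarith) (by positivity))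
      have h2 := h1 v hv
      have h5 := h v (Finset.mem_insert_of_mem hv)
      rcases le_or_gt (b v) 0 with hb | hb
      · nlinarith
      · nlinarith

lemma FaceSet.trans {V A B : Finset E} (hA : FaceSet V A) (hBA : FaceSet A B) : FaceSet V B := by
  classical
  obtain ⟨hAV, f, k, hf, hf'⟩ := hA
  obtain ⟨hB, g, l, hg, hg'⟩ := hBA
  obtain ⟨ε, hε, h⟩ := eps_exists (V \ A) (fun v => f v - k) (fun v => g v - l) (by
    intro v hv
    rw [Finset.mem_sdiff] at hv
    have := hf' v hv.1 hv.2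
    show f v - k < 0
    linarith)
  refine ⟨hB.trans hAV, f + ε • g, k + ε * l, ?_, ?_⟩
  · intro v hv
    simp [hf v (hB hv), hg v hv]
  · intro v hv hvB
    by_cases hvA : v ∈ A
    · have := hg' v hvA hvB
      simp only [LinearMap.add_apply, LinearMap.smul_apply, smul_eq_mul, hf v hvA]
      nlinarith
    · have h7 : f v - k + ε * (g v - l) < 0 := h v (Finset.mem_sdiff.2 ⟨hv, hvA⟩)
      simp only [LinearMap.add_apply, LinearMap.smul_apply, smul_eq_mul]
      nlinarith

lemma FaceSet.self (V : Finset E) : FaceSet V V :=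
  ⟨subset_rfl, 0, 0, by simp, fun v hv h => absurd hv h⟩

lemma Exposed.mono {V A : Finset E} (h : Exposed V) (hA : A ⊆ V) : Exposed A := by
  intro x hx
  obtain ⟨f, hf⟩ := h x (hA hx)
  exact ⟨f, fun y hy => hf y (hA hy)⟩

/-- maximal face of a functional that is given by a linear functional `G` with `G v ≤ G x`. -/
lemma faceSet_of_le [DecidableEq E] (V : Finset E) (G : E →ₗ[ℝ] ℝ) (k : ℝ) (h : ∀ v ∈ V, G v ≤ k) :
    FaceSet V (V.filter (fun v => G v = k)) := by
  refine ⟨Finset.filter_subset _ _, G, k, fun v hv => (Finset.mem_filter.1 hv).2, ?_⟩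
  intro v hv hv'
  rcases lt_or_eq_of_le (h v hv) with h1 | h1
  · exact h1
  · exact absurd (Finset.mem_filter.2 ⟨hv, h1⟩) hv'

/-- The simplex-step lemma. -/
theorem lp [DecidableEq E] {V : Finset E} (hV : Exposed V) {A : Finset E} (hA : FaceSet V A) {x : E} (hx : x ∈ A)
    (g : E →ₗ[ℝ] ℝ) (hg : ∃ y ∈ A, g x < g y) :
    ∃ y ∈ A, g x < g y ∧ FaceSet V {x, y} := by
  classical
  -- minimal face
  let P : Finset E → Prop := fun B => B ⊆ A ∧ FaceSet V B ∧ x ∈ B ∧ ∃ y ∈ B, g x < g y
  have hP : ∃ n, ∃ B : Finset E, B.card = n ∧ P B :=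
    ⟨A.card, A, rfl, subset_rfl, hA, hx, hg⟩
  obtain ⟨B, hBc, hBA, hBF, hxB, y0, hy0B, hy0⟩ := Nat.find_spec hP
  have hmin : ∀ B' : Finset E, P B' → B.card ≤ B'.card := by
    intro B' hB'
    rw [hBc]
    exact Nat.find_min' hP ⟨B', rfl, hB'⟩
  have hBV : B ⊆ V := hBF.1
  -- Claim A
  have claimA : ∀ f : E →ₗ[ℝ] ℝ, (∀ v ∈ B, v ≠ x → f v < f x) →
      ∃ ρ : ℝ, 0 < ρ ∧ ∀ v ∈ B, g v - g x = ρ * (f x - f v) := by
    intro f hf
    have hne : (B.erase x).Nonempty := ⟨y0, Finset.mem_erase.2 ⟨by rintro rfl; exact lt_irrefl _ hy0, hy0B⟩⟩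
    obtain ⟨v1, hv1, hmax⟩ := Finset.exists_max_image (B.erase x) (fun v => (g v - g x) / (f x - f v)) hne
    set ρ := (g v1 - g x) / (f x - f v1) with hρ
    have hpos : ∀ v ∈ B.erase x, 0 < f x - f v := fun v hv => by
      have := hf v (Finset.mem_of_mem_erase hv) (Finset.ne_of_mem_erase hv)
      linarith
    have hρ0 : 0 < ρ := by
      have h1 := hmax y0 (Finset.mem_erase.2 ⟨by rintro rfl; exact lt_irrefl _ hy0, hy0B⟩)
      refine lt_of_lt_of_le ?_ h1
      exact div_pos (by linarith) (hpos y0 (Finset.mem_erase.2 ⟨by rintro rfl; exact lt_irrefl _ hy0, hy0B⟩))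
    have hle : ∀ v ∈ B, (g + ρ • f) v ≤ (g + ρ • f) x := by
      intro v hv
      by_cases hvx : v = x
      · rw [hvx]
      · have hv' := Finset.mem_erase.2 ⟨hvx, hv⟩
        have h1 := hmax v hv'
        have h2 := hpos v hv'
        rw [div_le_iff₀ h2] at h1
        simp only [LinearMap.add_apply, LinearMap.smul_apply, smul_eq_mul]
        nlinarith
    have hF : FaceSet B (B.filter (fun v => (g + ρ • f) v = (g + ρ • f) x)) :=
      faceSet_of_le B (g + ρ • f) _ hle
    have hPB' : P (B.filter (fun v => (g + ρ • f) v = (g + ρ • f) x)) := by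
      refine ⟨(Finset.filter_subset _ _).trans hBA, hBF.trans hF, Finset.mem_filter.2 ⟨hxB, rfl⟩, v1, ?_, ?_⟩
      · refine Finset.mem_filter.2 ⟨Finset.mem_of_mem_erase hv1, ?_⟩
        have h2 := hpos v1 hv1
        have h3 : ρ * (f x - f v1) = g v1 - g x := by
          rw [hρ]; exact div_mul_cancel₀ _ h2.ne'
        simp only [LinearMap.add_apply, LinearMap.smul_apply, smul_eq_mul]
        linarith
      · have h2 := hpos v1 hv1
        have h3 : ρ * (f x - f v1) = g v1 - g x := by
          rw [hρ]; exact div_mul_cancel₀ _ h2.ne'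
        nlinarith
    have hEq : B.filter (fun v => (g + ρ • f) v = (g + ρ • f) x) = B :=
      Finset.eq_of_subset_of_card_le (Finset.filter_subset _ _) (hmin _ hPB')
    refine ⟨ρ, hρ0, fun v hv => ?_⟩
    rw [← hEq] at hv
    have := (Finset.mem_filter.1 hv).2
    simp only [LinearMap.add_apply, LinearMap.smul_apply, smul_eq_mul] at this
    linarith
  -- B has exactly two elements
  obtain ⟨f, hf⟩ := hV x (hBV hxB)
  have hfB : ∀ v ∈ B, v ≠ x → f v < f x := fun v hv => hf v (hBV hv)
  obtain ⟨ρ, hρ, hρv⟩ := claimA f hfB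
  -- key : exposing functionals at other points
  have key : ∀ y ∈ B, y ≠ x → ∀ z ∈ B, z ≠ x → y ≠ z → f y < f z := by
    intro y hy hyx z hz hzx hyz
    obtain ⟨fy, hfy⟩ := hV y (hBV hy)
    obtain ⟨ε, hε, hεv⟩ := eps_exists (B.erase x) (fun v => f v - f x) (fun v => fy v - fy x) (by
      intro v hv
      have := hfB v (Finset.mem_of_mem_erase hv) (Finset.ne_of_mem_erase hv)
      show f v - f x < 0
      linarith)
    obtain ⟨ρ', hρ', hρv'⟩ := claimA (f + ε • fy) (by
      intro v hv hvx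
      have h7 : f v - f x + ε * (fy v - fy x) < 0 := hεv v (Finset.mem_erase.2 ⟨hvx, hv⟩)
      simp only [LinearMap.add_apply, LinearMap.smul_apply, smul_eq_mul]
      nlinarith)
    have e1 := hρv y hy
    have e2 := hρv' y hy
    have e3 := hρv z hz
    have e4 := hρv' z hz
    simp only [LinearMap.add_apply, LinearMap.smul_apply, smul_eq_mul] at e2 e4
    have p1 : fy z < fy y := hfy z (hBV hz) (Ne.symm hyz)
    have p2 : fy x < fy y := hfy x (hBV hxB) (Ne.symm hyx)
    have p3 : f y < f x := hfB y hy hyx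
    have p4 : f z < f x := hfB z hz hzx
    -- ρ (f x - f y) = ρ' (f x - f y) + ρ' ε (fy x - fy y)
    -- so (ρ' - ρ)(f x - f y) = ρ' ε (fy y - fy x)
    have q1 : (ρ' - ρ) * (f x - f y) = ρ' * ε * (fy y - fy x) := by linarith
    have q2 : (ρ' - ρ) * (f x - f z) = ρ' * ε * (fy z - fy x) := by linarith
    have q3 : 0 < ρ' * ε := mul_pos hρ' hε
    have q4 : 0 < ρ' - ρ := by
      by_contra hcon
      push Not at hcon
      have : (ρ' - ρ) * (f x - f y) ≤ 0 := mul_nonpos_of_nonpos_of_nonneg hcon (by linarith)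
      have : 0 < ρ' * ε * (fy y - fy x) := mul_pos q3 (by linarith)
      linarith
    have q5 : (ρ' - ρ) * (f z - f y) = ρ' * ε * (fy y - fy z) := by linarith
    by_contra hcon
    push Not at hcon
    have : (ρ' - ρ) * (f z - f y) ≤ 0 := mul_nonpos_of_nonneg_of_nonpos q4.le (by linarith)
    have : 0 < ρ' * ε * (fy y - fy z) := mul_pos q3 (by linarith)
    linarith
  have hy0x : y0 ≠ x := by rintro rfl; exact lt_irrefl _ hy0
  have hB2 : B = {x, y0} := by
    ext z
    simp only [Finset.mem_insert, Finset.mem_singleton]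
    constructor
    · intro hz
      by_contra hcon
      push Not at hcon
      have h1 := key y0 hy0B hy0x z hz hcon.1 (Ne.symm hcon.2)
      have h2 := key z hz hcon.1 y0 hy0B hy0x hcon.2
      linarith
    · rintro (rfl | rfl)
      · exact hxB
      · exact hy0B
  refine ⟨y0, hBA hy0B, hy0, ?_⟩
  rw [← hB2]; exact hBF

end Pool.Agent.R579.Orn
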