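import Mathlib
import Pool.Agent.R579.Orn.LP

namespace Pool.Agent.R579.Orn

open Finset Relation

variable {E : Type*} [AddCommGroup E] [Module ℝ E] [DecidableEq E]

/-- oriented edges of the polytope with vertex set `V` -/
def Up (V : Finset E) (c : E →ₗ[ℝ] ℝ) (x y : E) : Prop :=
  FaceSet V {x, y} ∧ c x < c y

/-- `c` is not constant on any edge -/
def Gen (V : Finset E) (c : E →ₗ[ℝ] ℝ) : Prop :=
  ∀ x y : E, x ≠ y → FaceSet V {x, y} → c x ≠ c y

lemma Gen.neg {V : Finset E} {c : E →ₗ[ℝ] ℝ} (h : Gen V c) : Gen V (-c) := by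
  intro x y hxy hF he
  apply h x y hxy hF
  simpa using he

lemma up_neg {V : Finset E} {c : E →ₗ[ℝ] ℝ} {x y : E} (h : Up V (-c) x y) : Up V c y x := by
  refine ⟨?_, ?_⟩
  · rw [Finset.pair_comm]; exact h.1
  · have := h.2
    simpa using this

theorem min_face {V : Finset E} (hV : Exposed V) {c : E →ₗ[ℝ] ℝ} (hc : Gen V c) {A : Finset E}
    (hA : FaceSet V A) (hne : A.Nonempty) :
    ∃ z ∈ A, (∀ y ∈ A, y ≠ z → c z < c y) ∧ ∀ y ∈ A, ReflTransGen (Up V c) z y := by
  obtain ⟨z, hz, hmin⟩ := Finset.exists_min_image A c hne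
  have hstrict : ∀ y ∈ A, y ≠ z → c z < c y := by
    intro y hy hyz
    rcases lt_or_eq_of_le (hmin y hy) with h | h
    · exact h
    · exfalso
      have hM : FaceSet A (A.filter (fun v => (-c) v = (-c) z)) := by
        apply faceSet_of_le
        intro v hv
        have := hmin v hv
        simpa using this
      have hyM : y ∈ A.filter (fun v => (-c) v = (-c) z) :=
        Finset.mem_filter.2 ⟨hy, by simp [h]⟩
      have hzM : z ∈ A.filter (fun v => (-c) v = (-c) z) :=
        Finset.mem_filter.2 ⟨hz, rfl⟩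
      obtain ⟨f, hf⟩ := hV y (hA.1 hy)
      obtain ⟨y', hy', h1, h2⟩ := lp hV (hA.trans hM) hzM f ⟨y, hyM, hf z (hA.1 hz) (Ne.symm hyz)⟩
      have hne' : z ≠ y' := by rintro rfl; exact lt_irrefl _ h1
      apply hc z y' hne' h2
      have := (Finset.mem_filter.1 hy').2
      simpa using this.symm
  refine ⟨z, hz, hstrict, ?_⟩
  -- strong induction
  have : ∀ n : ℕ, ∀ y ∈ A, (A.filter (fun v => c v < c y)).card = n → ReflTransGen (Up V c) z y := by
    intro n
    induction n using Nat.strong_induction_on with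
    | _ n ih =>
      intro y hy hn
      by_cases hyz : y = z
      · rw [hyz]
      · have h1 := hstrict y hy hyz
        obtain ⟨y', hy', h2, h3⟩ := lp hV hA hy (-c) ⟨z, hz, by simpa using h1⟩
        have h4 : c y' < c y := by simpa using h2
        have hlt : (A.filter (fun v => c v < c y')).card < n := by
          rw [← hn]
          apply Finset.card_lt_card
          rw [Finset.ssubset_iff_of_subset]
          · exact ⟨y', Finset.mem_filter.2 ⟨hy', h4⟩, by simp⟩
          · intro v hv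
            rw [Finset.mem_filter] at hv ⊢
            exact ⟨hv.1, hv.2.trans h4⟩
        refine (ih _ hlt y' hy' rfl).tail ⟨?_, h4⟩
        rw [Finset.pair_comm]; exact h3
  intro y hy
  exact this _ y hy rfl

theorem max_face {V : Finset E} (hV : Exposed V) {c : E →ₗ[ℝ] ℝ} (hc : Gen V c) {A : Finset E}
    (hA : FaceSet V A) (hne : A.Nonempty) :
    ∃ z ∈ A, (∀ y ∈ A, y ≠ z → c y < c z) ∧ ∀ y ∈ A, ReflTransGen (Up V c) y z := by
  obtain ⟨z, hz, h1, h2⟩ := min_face hV hc.neg hA hne
  refine ⟨z, hz, fun y hy hyz => by simpa using h1 y hy hyz, fun y hy => ?_⟩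
  have h3 := h2 y hy
  have h4 : ReflTransGen (Function.swap (Up V c)) z y :=
    (ReflTransGen.mono (r := Up V (-c)) (p := Function.swap (Up V c))
      (fun a b hab => up_neg hab)) z y h3
  exact reflTransGen_swap.1 h4

lemma c_le_of_path {V : Finset E} {c : E →ₗ[ℝ] ℝ} {x y : E} (h : ReflTransGen (Up V c) x y) :
    c x ≤ c y := by
  induction h with
  | refl => exact le_rfl
  | tail _ h ih => exact ih.trans h.2.le

/-- the rotation lemma: a face containing the edge `x a`, at least one more vertex, and having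
`x` as its source. -/
theorem rotate {V : Finset E} {c : E →ₗ[ℝ] ℝ} (x a b : E)
    (hab : a ≠ b) (ha : Up V c x a) (hb : Up V c x b) :
    ∃ A, FaceSet V A ∧ x ∈ A ∧ a ∈ A ∧ (∀ v ∈ A, v ≠ x → c x < c v) ∧ ∃ v ∈ A, v ≠ x ∧ v ≠ a := by
  obtain ⟨⟨hsa, fa, ka, hfa, hfa'⟩, hca⟩ := ha
  obtain ⟨⟨hsb, fb, kb, hfb, hfb'⟩, hcb⟩ := hb
  have hxa : x ≠ a := by rintro rfl; exact lt_irrefl _ hca
  have hxb : x ≠ b := by rintro rfl; exact lt_irrefl _ hcb
  have hxV : x ∈ V := hsa (by simp)
  have haV : a ∈ V := hsa (by simp)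
  have hbV : b ∈ V := hsb (by simp)
  have e1 : fa x = ka := hfa x (by simp)
  have e2 : fa a = ka := hfa a (by simp)
  have e3 : fb x = kb := hfb x (by simp)
  have e4 : fb b = kb := hfb b (by simp)
  have e5 : fb a < kb := hfb' a haV (by simp [hab, Ne.symm hxa])
  have e6 : fa b < ka := hfa' b hbV (by simp [Ne.symm hab, Ne.symm hxb])
  -- the functional k
  set μ : ℝ := (c a - c x) / (kb - fb a) with hμ
  have hμ0 : 0 < μ := div_pos (by linarith) (by linarith)
  have hμe : μ * (kb - fb a) = c a - c x := div_mul_cancel₀ _ (by linarith)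
  set k : E →ₗ[ℝ] ℝ := c + μ • fb with hk
  have hkv : ∀ v, k v = c v + μ * fb v := fun v => by simp [hk]
  have kx : k x = c x + μ * kb := by rw [hkv, e3]
  have kax : k a = k x := by rw [hkv, kx]; linarith
  have kb1 : k x < k b := by rw [hkv b, kx, e4]; linarith
  have kneg : ∀ v ∈ V, v ≠ x → c v ≤ c x → k v < k x := by
    intro v hv hvx hcv
    have hvb : v ≠ b := by rintro rfl; linarith
    have h5 : fb v < kb := hfb' v hv (by simp [hvx, hvb])
    rw [hkv, kx]
    nlinarith
  -- the ratio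
  have hSne : (V.filter (fun v => k x < k v)).Nonempty := ⟨b, Finset.mem_filter.2 ⟨hbV, kb1⟩⟩
  obtain ⟨v1, hv1, hmin⟩ := Finset.exists_min_image (V.filter (fun v => k x < k v))
    (fun v => (ka - fa v) / (k v - k x)) hSne
  rw [Finset.mem_filter] at hv1
  have hfaS : ∀ v ∈ V, k x < k v → fa v < ka := by
    intro v hv hkv'
    apply hfa' v hv
    simp only [Finset.mem_insert, Finset.mem_singleton, not_or]
    refine ⟨by rintro rfl; exact lt_irrefl _ hkv', by rintro rfl; rw [kax] at hkv'; exact lt_irrefl _ hkv'⟩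
  set l : ℝ := (ka - fa v1) / (k v1 - k x) with hl
  have hl0 : 0 < l := div_pos (by linarith [hfaS v1 hv1.1 hv1.2]) (by linarith [hv1.2])
  have hle1 : l * (k v1 - k x) = ka - fa v1 := div_mul_cancel₀ _ (by linarith [hv1.2])
  have hle : ∀ v ∈ V, (fa + l • k) v ≤ ka + l * k x := by
    intro v hv
    simp only [LinearMap.add_apply, LinearMap.smul_apply, smul_eq_mul]
    rcases lt_or_ge (k x) (k v) with h | h
    · have h1 := hmin v (Finset.mem_filter.2 ⟨hv, h⟩)
      rw [le_div_iff₀ (by linarith)] at h1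
      nlinarith
    · have h2 : fa v ≤ ka := by
        by_cases hv' : v ∈ ({x, a} : Finset E)
        · exact (hfa v hv').le
        · exact (hfa' v hv hv').le
      nlinarith
  refine ⟨V.filter (fun v => (fa + l • k) v = ka + l * k x), faceSet_of_le V _ _ hle, ?_, ?_, ?_, ?_⟩
  · refine Finset.mem_filter.2 ⟨hxV, ?_⟩
    simp [e1]
  · refine Finset.mem_filter.2 ⟨haV, ?_⟩
    simp [e2, kax]
  · intro v hv hvx
    rw [Finset.mem_filter] at hv
    obtain ⟨hvV, hv2⟩ := hv
    simp only [LinearMap.add_apply, LinearMap.smul_apply, smul_eq_mul] at hv2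
    by_contra hcon
    push Not at hcon
    have h1 := kneg v hvV hvx hcon
    have hva : v ≠ a := by rintro rfl; linarith
    have h2 : fa v < ka := hfa' v hvV (by simp [hvx, hva])
    nlinarith
  · refine ⟨v1, Finset.mem_filter.2 ⟨hv1.1, ?_⟩, ?_, ?_⟩
    · simp only [LinearMap.add_apply, LinearMap.smul_apply, smul_eq_mul]
      linarith
    · rintro rfl; exact lt_irrefl _ hv1.2
    · rintro rfl; have := hv1.2; rw [kax] at this; exact lt_irrefl _ this

end Pool.Agent.R579.Orn
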