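import Mathlib
import Pool.Agent.R579.Orn.Face

namespace Pool.Agent.R579.Orn

open Finset Relation

variable {E : Type*} [AddCommGroup E] [Module ℝ E] [DecidableEq E]

/-- A realization of the partial order `L` as the closure of the oriented graph of the polytope
with vertex set `V`. -/
structure Real (L : Type*) [PartialOrder L] (V : Finset E) (c : E →ₗ[ℝ] ℝ) (e : L → E) : Prop where
  exposed : Exposed V
  gen : Gen V c
  inj : Function.Injective e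
  mem : ∀ a, e a ∈ V
  surj : ∀ x ∈ V, ∃ a, e a = x
  le_iff : ∀ a b, a ≤ b ↔ ReflTransGen (Up V c) (e a) (e b)

variable {L : Type*} [PartialOrder L] {V : Finset E} {c : E →ₗ[ℝ] ℝ} {e : L → E}

namespace Real

lemma le_of_up (h : Real L V c e) {a b : L} (hab : Up V c (e a) (e b)) : a ≤ b :=
  (h.le_iff a b).2 (ReflTransGen.single hab)

lemma up_of_covBy (h : Real L V c e) {a b : L} (hab : a ⋖ b) : Up V c (e a) (e b) := by
  have h1 := (h.le_iff a b).1 hab.le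
  rcases ReflTransGen.cases_head h1 with h2 | ⟨w, h2, h3⟩
  · exact absurd (h.inj h2) hab.ne
  · have hwV : w ∈ V := h2.1.1 (by simp)
    obtain ⟨d, rfl⟩ := h.surj w hwV
    have h4 : a ≤ d := h.le_of_up h2
    have h5 : d ≤ b := (h.le_iff d b).2 h3
    have h6 : a ≠ d := by rintro rfl; exact lt_irrefl _ h2.2
    have h7 : d = b := by
      by_contra hdb
      exact hab.2 (lt_of_le_of_ne h4 h6) (lt_of_le_of_ne h5 hdb)
    rw [← h7]; exact h2

lemma comparable_of_edge (h : Real L V c e) {a b : L} (hab : a ≠ b) (hF : FaceSet V {e a, e b}) :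
    a ≤ b ∨ b ≤ a := by
  have h1 := h.gen (e a) (e b) (fun hh => hab (h.inj hh)) hF
  rcases lt_or_gt_of_ne h1 with h2 | h2
  · exact Or.inl (h.le_of_up ⟨hF, h2⟩)
  · refine Or.inr (h.le_of_up ⟨?_, h2⟩)
    rw [Finset.pair_comm]; exact hF

lemma face_inf (h : Real L V c e) {A : Finset E} (hA : FaceSet V A) {a b : L} (ha : e a ∈ A)
    (hb : e b ∈ A) : ∃ d, e d ∈ A ∧ d ≤ a ∧ d ≤ b := by
  obtain ⟨z, hz, _, h2⟩ := min_face h.exposed h.gen hA ⟨_, ha⟩
  obtain ⟨d, rfl⟩ := h.surj z (hA.1 hz)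
  exact ⟨d, hz, (h.le_iff _ _).2 (h2 _ ha), (h.le_iff _ _).2 (h2 _ hb)⟩

lemma face_sup (h : Real L V c e) {A : Finset E} (hA : FaceSet V A) {a b : L} (ha : e a ∈ A)
    (hb : e b ∈ A) : ∃ d, e d ∈ A ∧ a ≤ d ∧ b ≤ d := by
  obtain ⟨z, hz, _, h2⟩ := max_face h.exposed h.gen hA ⟨_, ha⟩
  obtain ⟨d, rfl⟩ := h.surj z (hA.1 hz)
  exact ⟨d, hz, (h.le_iff _ _).2 (h2 _ ha), (h.le_iff _ _).2 (h2 _ hb)⟩

lemma face_Ici (h : Real L V c e) {A : Finset E} (hA : FaceSet V A) {x : L} (hx : e x ∈ A)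
    (hmin : ∀ v ∈ A, v ≠ e x → c (e x) < c v) {d : L} (hd : e d ∈ A) : x ≤ d := by
  obtain ⟨z, hz, h1, h2⟩ := min_face h.exposed h.gen hA ⟨_, hx⟩
  have hzx : z = e x := by
    by_contra hne
    have h3 := h1 _ hx (Ne.symm hne)
    have h4 := hmin z hz hne
    linarith
  rw [hzx] at h2
  exact (h.le_iff _ _).2 (h2 _ hd)

/-- The square lemma. -/
theorem square (h : Real L V c e) {x a b t : L} (hxa : x ⋖ a) (hxb : x ⋖ b) (hab : a ≠ b)
    (hx : ∀ d, x ≤ d → d = x ∨ d = a ∨ d = b ∨ d = t) (ht : ∀ d, a ≤ d → b ≤ d → d = t) :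
    ∃ A, FaceSet V A ∧ e x ∈ A ∧ e a ∈ A ∧ e t ∈ A ∧ ∀ d, e d ∈ A → d = x ∨ d = a ∨ d = b ∨ d = t := by
  obtain ⟨A, hA, h1, h2, h3, v, hv, hvx, hva⟩ := rotate (V := V) (c := c) (e x) (e a) (e b)
    (fun hh => hab (h.inj hh)) (h.up_of_covBy hxa) (h.up_of_covBy hxb)
  have hsub : ∀ d, e d ∈ A → d = x ∨ d = a ∨ d = b ∨ d = t := fun d hd =>
    hx d (h.face_Ici hA h1 h3 hd)
  refine ⟨A, hA, h1, h2, ?_, hsub⟩
  obtain ⟨d, rfl⟩ := h.surj v (hA.1 hv)
  rcases hsub d hv with rfl | rfl | rfl | rfl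
  · exact absurd rfl hvx
  · exact absurd rfl hva
  · obtain ⟨d', hd', h4, h5⟩ := h.face_sup hA h2 hv
    rw [ht d' h4 h5] at hd'
    exact hd'
  · exact hv

/-- Functionals that are nonpositive on the comparable elements are nonpositive everywhere. -/
lemma local_max (h : Real L V c e) (x : L) (F : E →ₗ[ℝ] ℝ)
    (hF : ∀ d, (d ≤ x ∨ x ≤ d) → F (e d) ≤ F (e x)) : ∀ v ∈ V, F v ≤ F (e x) := by
  intro v hv
  by_contra hcon
  push Not at hcon
  obtain ⟨y, hy, h1, h2⟩ := lp h.exposed (FaceSet.self V) (h.mem x) F ⟨v, hv, hcon⟩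
  obtain ⟨d, rfl⟩ := h.surj y hy
  have hne : x ≠ d := by rintro rfl; exact lt_irrefl _ h1
  have := hF d (h.comparable_of_edge hne h2).symm
  linarith

end Real

end Pool.Agent.R579.Orn
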