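import Mathlib
import Pool.Agent.R579.Orn.Order

namespace Pool.Agent.R579.Orn

open Finset Relation

variable {E : Type*} [AddCommGroup E] [Module ℝ E] [DecidableEq E]

/-- Linear algebra: six vectors spanning a space of dimension at least five, and sign data. -/
theorem six_vectors (r : Fin 6 → E) (hfin : 5 ≤ Module.finrank ℝ (Submodule.span ℝ (Set.range r)))
    (f : E →ₗ[ℝ] ℝ) (hf : ∀ i, f (r i) < 0)
    (H1 : ∀ F : E →ₗ[ℝ] ℝ, (∀ i, F (r i) ≤ 0) → F (r 2) = 0 → F (r 3) = 0 → F (r 0) = 0)
    (H2 : ∀ F : E →ₗ[ℝ] ℝ, (∀ i, F (r i) ≤ 0) → F (r 4) = 0 → F (r 5) = 0 → F (r 1) = 0) :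
    False := by
  classical
  let T : (Fin 6 → ℝ) →ₗ[ℝ] E := Fintype.linearCombination ℝ r
  have hT : ∀ l : Fin 6 → ℝ, T l = ∑ i, l i • r i := fun l => by
    simp [T, Fintype.linearCombination_apply]
  have hrange : LinearMap.range T = Submodule.span ℝ (Set.range r) := by
    simp [T, Fintype.range_linearCombination]
  have hker : Module.finrank ℝ (LinearMap.ker T) ≤ 1 := by
    have h1 := LinearMap.finrank_range_add_finrank_ker T
    rw [hrange] at h1
    simp at h1
    omega
  obtain ⟨⟨l, hl⟩, hspan⟩ := finrank_le_one_iff.1 hker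
  -- existence of functionals
  have hex : ∀ a : Fin 6 → ℝ, ∑ i, l i * a i = 0 → ∃ F : E →ₗ[ℝ] ℝ, ∀ i, F (r i) = a i := by
    intro a ha
    let φ : Module.Dual ℝ (Fin 6 → ℝ) := Fintype.linearCombination ℝ a
    have hφ : ∀ m : Fin 6 → ℝ, φ m = ∑ i, m i * a i := fun m => by
      simp [φ, Fintype.linearCombination_apply]
    have hmem : φ ∈ (LinearMap.ker T).dualAnnihilator := by
      rw [Submodule.mem_dualAnnihilator]
      intro m hm
      obtain ⟨s, hs⟩ := hspan ⟨m, hm⟩
      have hs' : s • l = m := by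
        have := congrArg Subtype.val hs
        simpa using this
      rw [← hs', map_smul, hφ, ha, smul_zero]
    rw [← LinearMap.range_dualMap_eq_dualAnnihilator_ker] at hmem
    obtain ⟨F, hF⟩ := hmem
    refine ⟨F, fun i => ?_⟩
    have h1 : (T.dualMap F) (Pi.single i 1) = φ (Pi.single i 1) := by rw [hF]
    rw [LinearMap.dualMap_apply, hT, hφ] at h1
    simpa [Pi.single_apply] using h1
  have noA : ∀ a : Fin 6 → ℝ, (∀ i, a i ≤ 0) → ∑ i, l i * a i = 0 →
      (a 2 = 0 → a 3 = 0 → a 0 = 0) ∧ (a 4 = 0 → a 5 = 0 → a 1 = 0) := by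
    intro a ha hs
    obtain ⟨F, hF⟩ := hex a hs
    constructor
    · intro h2 h3
      rw [← hF 0]
      exact H1 F (fun i => by rw [hF]; exact ha i) (by rw [hF, h2]) (by rw [hF, h3])
    · intro h2 h3
      rw [← hF 1]
      exact H2 F (fun i => by rw [hF]; exact ha i) (by rw [hF, h2]) (by rw [hF, h3])
  -- two-point functionals
  have two : ∀ i j : Fin 6, i ≠ j → l i * l j < 0 →
      ∀ k, (k ≠ i → k ≠ j → (fun k => if k = i then -|l j| else if k = j then -|l i| else 0 : Fin 6 → ℝ) k = 0) ∧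
        (∑ k, l k * (if k = i then -|l j| else if k = j then -|l i| else 0 : ℝ) = 0) := by
    intro i j hij hneg k
    refine ⟨fun h1 h2 => by simp [h1, h2], ?_⟩
    have : ∑ k, l k * (if k = i then -|l j| else if k = j then -|l i| else 0 : ℝ) =
        l i * (-|l j|) + l j * (-|l i|) := by
      rw [← Finset.add_sum_erase _ _ (Finset.mem_univ i), ← Finset.add_sum_erase (Finset.univ.erase i) _
        (Finset.mem_erase.2 ⟨Ne.symm hij, Finset.mem_univ j⟩)]
      rw [Finset.sum_eq_zero]
      · simp [Ne.symm hij]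
      · intro x hx
        have hx1 : x ≠ j := Finset.ne_of_mem_erase hx
        have hx2 : x ≠ i := Finset.ne_of_mem_erase (Finset.mem_of_mem_erase hx)
        simp [hx1, hx2]
    rw [this]
    rcases lt_or_ge (l i) 0 with h | h
    · have hj : 0 < l j := by
        by_contra hc; push Not at hc
        have := mul_nonneg_of_nonpos_of_nonpos h.le hc
        linarith
      rw [abs_of_neg h, abs_of_pos hj]; ring
    · have hj : l j < 0 := by
        by_contra hc; push Not at hc
        have := mul_nonneg h hc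
        linarith
      rw [abs_of_nonneg h, abs_of_neg hj]; ring
  have nneg : ∀ i j : Fin 6, i ≠ j → l i * l j < 0 → ∀ k, (if k = i then -|l j| else if k = j then -|l i| else 0 : ℝ) ≤ 0 := by
    intro i j _ _ k
    split_ifs
    · simp
    · simp
    · exact le_rfl
  -- l 0 ≠ 0, l 1 ≠ 0
  have hl0 : l 0 ≠ 0 := by
    intro h0
    have := (noA (fun k => if k = 0 then -1 else 0) (by intro k; split_ifs <;> norm_num)
      (by simp [h0])).1 (by simp) (by simp)
    simp at this
  have hl1 : l 1 ≠ 0 := by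
    intro h0
    have := (noA (fun k => if k = 1 then -1 else 0) (by intro k; split_ifs <;> norm_num)
      (by simp [h0])).2 (by simp) (by simp)
    simp at this
  have hA : ∀ j : Fin 6, j ≠ 0 → j ≠ 2 → j ≠ 3 → 0 ≤ l 0 * l j := by
    intro j hj0 hj2 hj3
    by_contra hneg
    push Not at hneg
    have := (noA (fun k => if k = 0 then -|l j| else if k = j then -|l 0| else 0)
      (nneg 0 j (Ne.symm hj0) hneg) ((two 0 j (Ne.symm hj0) hneg 0).2)).1
      (by simp [Ne.symm hj2]) (by simp [Ne.symm hj3])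
    simp at this
    rw [this] at hneg
    simp at hneg
  have hB : ∀ j : Fin 6, j ≠ 1 → j ≠ 4 → j ≠ 5 → 0 ≤ l 1 * l j := by
    intro j hj0 hj2 hj3
    by_contra hneg
    push Not at hneg
    have := (noA (fun k => if k = 1 then -|l j| else if k = j then -|l 1| else 0)
      (nneg 1 j (Ne.symm hj0) hneg) ((two 1 j (Ne.symm hj0) hneg 0).2)).2
      (by simp [Ne.symm hj2]) (by simp [Ne.symm hj3])
    simp at this
    rw [this] at hneg
    simp at hneg
  have h01 : 0 ≤ l 0 * l 1 := hA 1 (by decide) (by decide) (by decide)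
  have h04 : 0 ≤ l 0 * l 4 := hA 4 (by decide) (by decide) (by decide)
  have h05 : 0 ≤ l 0 * l 5 := hA 5 (by decide) (by decide) (by decide)
  have h12 : 0 ≤ l 1 * l 2 := hB 2 (by decide) (by decide) (by decide)
  have h13 : 0 ≤ l 1 * l 3 := hB 3 (by decide) (by decide) (by decide)
  have hsum : ∑ i, l i * f (r i) = 0 := by
    have h1 : T l = 0 := hl
    rw [hT] at h1
    have h2 := congrArg f h1
    simpa using h2
  rw [Fin.sum_univ_six] at hsum
  have hf0 := hf 0
  have hf1 := hf 1
  have hf2 := hf 2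
  have hf3 := hf 3
  have hf4 := hf 4
  have hf5 := hf 5
  rcases lt_or_gt_of_ne hl0 with hn | hp
  · have p1 : l 1 < 0 := by
      rcases lt_or_gt_of_ne hl1 with h | h
      · exact h
      · nlinarith [mul_neg_of_neg_of_pos hn h]
    have p2 : l 2 ≤ 0 := by
      by_contra hc; push Not at hc; nlinarith [mul_neg_of_neg_of_pos p1 hc]
    have p3 : l 3 ≤ 0 := by
      by_contra hc; push Not at hc; nlinarith [mul_neg_of_neg_of_pos p1 hc]
    have p4 : l 4 ≤ 0 := by
      by_contra hc; push Not at hc; nlinarith [mul_neg_of_neg_of_pos hn hc]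
    have p5 : l 5 ≤ 0 := by
      by_contra hc; push Not at hc; nlinarith [mul_neg_of_neg_of_pos hn hc]
    have q0 := mul_pos_of_neg_of_neg hn hf0
    have q1 := mul_nonneg_of_nonpos_of_nonpos p1.le hf1.le
    have q2 := mul_nonneg_of_nonpos_of_nonpos p2 hf2.le
    have q3 := mul_nonneg_of_nonpos_of_nonpos p3 hf3.le
    have q4 := mul_nonneg_of_nonpos_of_nonpos p4 hf4.le
    have q5 := mul_nonneg_of_nonpos_of_nonpos p5 hf5.le
    linarith
  · have p1 : 0 < l 1 := by
      rcases lt_or_gt_of_ne hl1 with h | h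
      · nlinarith [mul_neg_of_pos_of_neg hp h]
      · exact h
    have p2 : 0 ≤ l 2 := by
      by_contra hc; push Not at hc; nlinarith [mul_neg_of_pos_of_neg p1 hc]
    have p3 : 0 ≤ l 3 := by
      by_contra hc; push Not at hc; nlinarith [mul_neg_of_pos_of_neg p1 hc]
    have p4 : 0 ≤ l 4 := by
      by_contra hc; push Not at hc; nlinarith [mul_neg_of_pos_of_neg hp hc]
    have p5 : 0 ≤ l 5 := by
      by_contra hc; push Not at hc; nlinarith [mul_neg_of_pos_of_neg hp hc]
    have q0 := mul_neg_of_pos_of_neg hp hf0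
    have q1 := mul_nonpos_of_nonneg_of_nonpos p1.le hf1.le
    have q2 := mul_nonpos_of_nonneg_of_nonpos p2 hf2.le
    have q3 := mul_nonpos_of_nonneg_of_nonpos p3 hf3.le
    have q4 := mul_nonpos_of_nonneg_of_nonpos p4 hf4.le
    have q5 := mul_nonpos_of_nonneg_of_nonpos p5 hf5.le
    linarith

variable {L : Type*} [PartialOrder L] {V : Finset E} {c : E →ₗ[ℝ] ℝ} {e : L → E}

/-- The dimension bound from the local analysis at an element whose lower and upper intervals are
squares. -/
theorem Real.dim_le_four (h : Real L V c e) (x z t p q a b : L)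
    (hne : ∀ d, (d = z ∨ d = t ∨ d = p ∨ d = q ∨ d = a ∨ d = b) → d ≠ x)
    (hcomp : ∀ d, (d ≤ x ∨ x ≤ d) → d = x ∨ d = z ∨ d = t ∨ d = p ∨ d = q ∨ d = a ∨ d = b)
    (hpq : ∀ d, d ≤ p → d ≤ q → d = z) (hab : ∀ d, a ≤ d → b ≤ d → d = t) :
    Module.finrank ℝ (Submodule.span ℝ (Set.range (fun d : L => e d - e x))) ≤ 4 := by
  classical
  let w : Fin 6 → L := ![z, t, p, q, a, b]
  let r : Fin 6 → E := fun i => e (w i) - e x
  have hw : ∀ d, (∃ i, w i = d) ↔ (d = z ∨ d = t ∨ d = p ∨ d = q ∨ d = a ∨ d = b) := by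
    intro d
    constructor
    · rintro ⟨i, rfl⟩
      fin_cases i <;> simp [w]
    · rintro (rfl | rfl | rfl | rfl | rfl | rfl)
      · exact ⟨0, rfl⟩
      · exact ⟨1, rfl⟩
      · exact ⟨2, rfl⟩
      · exact ⟨3, rfl⟩
      · exact ⟨4, rfl⟩
      · exact ⟨5, rfl⟩
  -- functionals nonpositive on r are nonpositive on V - x
  have hFle : ∀ F : E →ₗ[ℝ] ℝ, (∀ i, F (r i) ≤ 0) → ∀ v ∈ V, F v ≤ F (e x) := by
    intro F hF
    apply h.local_max x F
    intro d hd
    rcases hcomp d hd with rfl | hd'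
    · exact le_rfl
    · obtain ⟨i, rfl⟩ := (hw d).2 hd'
      have := hF i
      simp only [r, map_sub] at this
      linarith
  -- spans agree
  have hspan : Submodule.span ℝ (Set.range (fun d : L => e d - e x)) ≤
      Submodule.span ℝ (Set.range r) := by
    rw [Submodule.span_le]
    rintro _ ⟨d, rfl⟩
    by_contra hcon
    obtain ⟨F, hF1, hF2⟩ := Submodule.exists_le_ker_of_notMem hcon
    have hr : ∀ i, F (r i) = 0 := fun i => by
      have := hF2 (Submodule.subset_span ⟨i, rfl⟩ : r i ∈ Submodule.span ℝ (Set.range r))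
      simpa using this
    have h1 := hFle F (fun i => (hr i).le) (e d) (h.mem d)
    have h2 := hFle (-F) (fun i => by simp [hr i]) (e d) (h.mem d)
    apply hF1
    simp only [LinearMap.neg_apply] at h2
    rw [map_sub]
    linarith
  have hfin : Module.finrank ℝ (Submodule.span ℝ (Set.range r)) ≤ 4 := by
    by_contra hcon
    push Not at hcon
    obtain ⟨f, hf⟩ := h.exposed (e x) (h.mem x)
    have hfr : ∀ i, f (r i) < 0 := by
      intro i
      have h1 : w i ≠ x := hne _ ((hw _).1 ⟨i, rfl⟩)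
      have h2 := hf (e (w i)) (h.mem _) (fun hh => h1 (h.inj hh))
      simp only [r, map_sub]
      linarith
    have hface : ∀ F : E →ₗ[ℝ] ℝ, (∀ i, F (r i) ≤ 0) →
        FaceSet V (V.filter (fun v => F v = F (e x))) := fun F hF =>
      faceSet_of_le V F _ (hFle F hF)
    have hmemf : ∀ (F : E →ₗ[ℝ] ℝ) (i : Fin 6), F (r i) = 0 →
        e (w i) ∈ V.filter (fun v => F v = F (e x)) := by
      intro F i hi
      refine Finset.mem_filter.2 ⟨h.mem _, ?_⟩
      simp only [r, map_sub] at hi
      linarith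
    refine six_vectors r hcon f hfr ?_ ?_
    · intro F hF h2 h3
      obtain ⟨d, hd, hd1, hd2⟩ := h.face_inf (hface F hF) (hmemf F 2 h2) (hmemf F 3 h3)
      have hdz : d = z := hpq d hd1 hd2
      have := (Finset.mem_filter.1 hd).2
      rw [hdz] at this
      simp only [r, map_sub]
      show F (e z) - F (e x) = 0
      linarith
    · intro F hF h2 h3
      obtain ⟨d, hd, hd1, hd2⟩ := h.face_sup (hface F hF) (hmemf F 4 h2) (hmemf F 5 h3)
      have hdz : d = t := hab d hd1 hd2
      have := (Finset.mem_filter.1 hd).2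
      rw [hdz] at this
      simp only [r, map_sub]
      show F (e t) - F (e x) = 0
      linarith
  have : Module.Finite ℝ (Submodule.span ℝ (Set.range r)) :=
    FiniteDimensional.span_of_finite ℝ (Set.finite_range r)
  exact (Submodule.finrank_mono hspan).trans hfin

end Pool.Agent.R579.Orn
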