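import Mathlib
import Pool.Agent.R579.Orn.Local

namespace Pool.Agent.R579.Orn

open Finset Relation

/-- The cones spanned by `a, m` and by `b, m'` meet only at the origin, in the strong sense. -/
def NC (a m b m' : Fin 3 → ℝ) : Prop :=
  ∀ x y z t : ℝ, 0 ≤ x → 0 ≤ y → 0 ≤ z → 0 ≤ t → x • a + y • m = z • b + t • m' →
    x = 0 ∧ y = 0 ∧ z = 0 ∧ t = 0

/-- The planarity statement. -/
def NoK33 : Prop :=
  ∀ (u w : Fin 3 → (Fin 3 → ℝ)) (m : Fin 3 → Fin 3 → (Fin 3 → ℝ)),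
    (∀ i j i' j', i ≠ i' → j ≠ j' → ∀ a, (a = u i ∨ a = w j) → ∀ b, (b = u i' ∨ b = w j') →
      NC a (m i j) b (m i' j')) → False

section
variable {E : Type*} [AddCommGroup E] [Module ℝ E]

theorem exists_proj (W : Submodule ℝ E) [Module.Finite ℝ W] (hW : Module.finrank ℝ W ≤ 4)
    (z0 : E) (hz0 : z0 ∈ W) (hne : z0 ≠ 0) :
    ∃ Φ : E →ₗ[ℝ] (Fin 3 → ℝ), ∀ y ∈ W, Φ y = 0 → ∃ s : ℝ, y = s • z0 := by
  classical
  let K : Submodule ℝ E := Submodule.span ℝ {z0}
  let q : W →ₗ[ℝ] (E ⧸ K) := K.mkQ.comp W.subtype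
  have hrank := LinearMap.finrank_range_add_finrank_ker q
  have hker : 1 ≤ Module.finrank ℝ (LinearMap.ker q) := by
    rw [Nat.one_le_iff_ne_zero]
    intro h0
    rw [Submodule.finrank_eq_zero] at h0
    have h1 : (⟨z0, hz0⟩ : W) ∈ LinearMap.ker q := by
      rw [LinearMap.mem_ker]
      simp only [q, LinearMap.comp_apply, Submodule.subtype_apply, Submodule.mkQ_apply]
      rw [Submodule.Quotient.mk_eq_zero]
      exact Submodule.mem_span_singleton_self z0
    rw [h0, Submodule.mem_bot] at h1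
    exact hne (congrArg Subtype.val h1)
  have hn : Module.finrank ℝ (LinearMap.range q) ≤ 3 := by omega
  let b := Module.finBasis ℝ (LinearMap.range q)
  let Ψ : LinearMap.range q →ₗ[ℝ] (Fin 3 → ℝ) :=
    LinearMap.pi (fun j : Fin 3 => if h : j.1 < Module.finrank ℝ (LinearMap.range q)
      then b.coord ⟨j.1, h⟩ else 0)
  have hΨ : ∀ y, Ψ y = 0 → y = 0 := by
    intro y hy
    apply b.ext_elem
    intro i
    have h1 := congrFun hy ⟨i.1, lt_of_lt_of_le i.2 hn⟩
    simp only [Ψ, LinearMap.pi_apply, i.2, dif_pos] at h1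
    simpa using h1
  obtain ⟨Φ, hΦ⟩ := LinearMap.exists_extend (Ψ.comp q.rangeRestrict)
  refine ⟨Φ, fun y hy hy0 => ?_⟩
  have h1 : (Φ.comp W.subtype) ⟨y, hy⟩ = (Ψ.comp q.rangeRestrict) ⟨y, hy⟩ := by rw [hΦ]
  simp only [LinearMap.comp_apply, Submodule.subtype_apply, hy0] at h1
  have h2 := hΨ _ h1.symm
  have h3 : q ⟨y, hy⟩ = 0 := by
    have := congrArg Subtype.val h2
    simpa using this
  simp only [q, LinearMap.comp_apply, Submodule.subtype_apply, Submodule.mkQ_apply] at h3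
  rw [Submodule.Quotient.mk_eq_zero] at h3
  obtain ⟨s, hs⟩ := Submodule.mem_span_singleton.1 h3
  exact ⟨s, hs.symm⟩

end

variable {E : Type*} [AddCommGroup E] [Module ℝ E] [DecidableEq E]

lemma face_functional {V A : Finset E} (hA : FaceSet V A) {t : E} (ht : t ∈ A) :
    ∃ F : E →ₗ[ℝ] ℝ, (∀ v ∈ A, F (v - t) = 0) ∧ (∀ v ∈ V, F (v - t) ≤ 0) ∧
      ∀ v ∈ V, v ∉ A → F (v - t) < 0 := by
  obtain ⟨_, f, k, h1, h2⟩ := hA
  refine ⟨f, fun v hv => by rw [map_sub, h1 v hv, h1 t ht, sub_self], fun v hv => ?_, fun v hv hvA => ?_⟩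
  · rw [map_sub, h1 t ht]
    by_cases hvA : v ∈ A
    · rw [h1 v hvA]; simp
    · linarith [h2 v hv hvA]
  · rw [map_sub, h1 t ht]
    linarith [h2 v hv hvA]

theorem nc_of_faces {V A A' : Finset E} (hA : FaceSet V A) (hA' : FaceSet V A') {t a m b m' : E}
    (htA : t ∈ A) (htA' : t ∈ A') (ha : a ∈ A) (hm : m ∈ A) (hb : b ∈ A') (hm' : m' ∈ A')
    (ha' : a ∉ A') (hm1 : m ∉ A') (hb' : b ∉ A) (hm1' : m' ∉ A)
    {x y z s ρ : ℝ} (hx : 0 ≤ x) (hy : 0 ≤ y) (hz : 0 ≤ z) (hs : 0 ≤ s)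
    (heq : x • (a - t) + y • (m - t) - (z • (b - t) + s • (m' - t)) = ρ • ∑ v ∈ V, (v - t)) :
    x = 0 ∧ y = 0 ∧ z = 0 ∧ s = 0 := by
  obtain ⟨F, hF1, hF2, hF3⟩ := face_functional hA htA
  obtain ⟨G, hG1, hG2, hG3⟩ := face_functional hA' htA'
  have hFz : F (∑ v ∈ V, (v - t)) < 0 := by
    rw [map_sum]
    exact Finset.sum_neg' hF2 ⟨b, hA'.1 hb, hF3 b (hA'.1 hb) hb'⟩
  have hGz : G (∑ v ∈ V, (v - t)) < 0 := by
    rw [map_sum]
    exact Finset.sum_neg' hG2 ⟨a, hA.1 ha, hG3 a (hA.1 ha) ha'⟩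
  have e1 := congrArg F heq
  have e2 := congrArg G heq
  rw [map_sub, map_add, map_add, map_smul, map_smul, map_smul, map_smul, map_smul, hF1 a ha, hF1 m hm] at e1
  rw [map_sub, map_add, map_add, map_smul, map_smul, map_smul, map_smul, map_smul, hG1 b hb, hG1 m' hm'] at e2
  simp only [smul_eq_mul, mul_zero, add_zero, zero_sub, sub_zero] at e1 e2
  have f1 := hF3 b (hA'.1 hb) hb'
  have f2 := hF3 m' (hA'.1 hm') hm1'
  have g1 := hG3 a (hA.1 ha) ha'
  have g2 := hG3 m (hA.1 hm) hm1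
  have p1 : z * F (b - t) ≤ 0 := mul_nonpos_of_nonneg_of_nonpos hz f1.le
  have p2 : s * F (m' - t) ≤ 0 := mul_nonpos_of_nonneg_of_nonpos hs f2.le
  have p3 : x * G (a - t) ≤ 0 := mul_nonpos_of_nonneg_of_nonpos hx g1.le
  have p4 : y * G (m - t) ≤ 0 := mul_nonpos_of_nonneg_of_nonpos hy g2.le
  have hρ1 : ρ ≤ 0 := by
    by_contra hc; push Not at hc
    have := mul_neg_of_pos_of_neg hc hFz
    linarith
  have hρ2 : 0 ≤ ρ := by
    by_contra hc; push Not at hc
    have := mul_pos_of_neg_of_neg hc hGz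
    linarith
  have hρ : ρ = 0 := le_antisymm hρ1 hρ2
  rw [hρ, zero_mul] at e1 e2
  refine ⟨?_, ?_, ?_, ?_⟩
  · have : x * G (a - t) = 0 := by linarith
    rcases mul_eq_zero.1 this with h | h
    · exact h
    · linarith
  · have : y * G (m - t) = 0 := by linarith
    rcases mul_eq_zero.1 this with h | h
    · exact h
    · linarith
  · have : z * F (b - t) = 0 := by linarith
    rcases mul_eq_zero.1 this with h | h
    · exact h
    · linarith
  · have : s * F (m' - t) = 0 := by linarith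
    rcases mul_eq_zero.1 this with h | h
    · exact h
    · linarith

variable {L : Type*} [PartialOrder L] {V : Finset E} {c : E →ₗ[ℝ] ℝ} {e : L → E}

theorem Real.top_contra (hK : NoK33) (h : Real L V c e) (x0 t : L)
    (hdim : Module.finrank ℝ (Submodule.span ℝ (Set.range (fun d : L => e d - e x0))) ≤ 4)
    (u w : Fin 3 → L) (m : Fin 3 → Fin 3 → L)
    (hu : ∀ i i', i ≠ i' → u i ≠ u i') (hw : ∀ i i', i ≠ i' → w i ≠ w i')
    (huw : ∀ i j, u i ≠ w j) (hum : ∀ i k l, u i ≠ m k l) (hwm : ∀ i k l, w i ≠ m k l)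
    (hmm : ∀ i j i' j', i ≠ i' → m i j ≠ m i' j')
    (hut : ∀ i, u i ≠ t) (hwt : ∀ i, w i ≠ t) (hmt : ∀ i j, m i j ≠ t)
    (hcu : ∀ i j, m i j ⋖ u i) (hcw : ∀ i j, m i j ⋖ w j)
    (hIci : ∀ i j d, m i j ≤ d → d = m i j ∨ d = u i ∨ d = w j ∨ d = t)
    (hsup : ∀ i j d, u i ≤ d → w j ≤ d → d = t) : False := by
  classical
  -- faces
  have hface : ∀ i j, ∀ a, (a = u i ∨ a = w j) → ∃ A, FaceSet V A ∧ e (m i j) ∈ A ∧ e a ∈ A ∧
      e t ∈ A ∧ ∀ d, e d ∈ A → d = m i j ∨ d = u i ∨ d = w j ∨ d = t := by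
    intro i j a ha
    rcases ha with rfl | rfl
    · exact h.square (hcu i j) (hcw i j) (huw i j) (hIci i j) (hsup i j)
    · obtain ⟨A, h1, h2, h3, h4, h5⟩ := h.square (hcw i j) (hcu i j) (huw i j).symm
        (fun d hd => by
          rcases hIci i j d hd with h | h | h | h
          · exact Or.inl h
          · exact Or.inr (Or.inr (Or.inl h))
          · exact Or.inr (Or.inl h)
          · exact Or.inr (Or.inr (Or.inr h)))
        (fun d hd1 hd2 => hsup i j d hd2 hd1)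
      refine ⟨A, h1, h2, h3, h4, fun d hd => ?_⟩
      rcases h5 d hd with h | h | h | h
      · exact Or.inl h
      · exact Or.inr (Or.inr (Or.inl h))
      · exact Or.inr (Or.inl h)
      · exact Or.inr (Or.inr (Or.inr h))
  -- the projection
  set W := Submodule.span ℝ (Set.range (fun d : L => e d - e x0)) with hWdef
  have hfinL : Finite L := by
    have : Finite V := inferInstance
    exact Finite.of_injective (fun a : L => (⟨e a, h.mem a⟩ : V)) (fun a b hab => h.inj (congrArg Subtype.val hab))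
  have hWfin : Module.Finite ℝ W := FiniteDimensional.span_of_finite ℝ (Set.finite_range _)
  have hWmem : ∀ v ∈ V, v - e t ∈ W := by
    intro v hv
    obtain ⟨d, rfl⟩ := h.surj v hv
    have h1 : e d - e x0 ∈ W := Submodule.subset_span ⟨d, rfl⟩
    have h2 : e t - e x0 ∈ W := Submodule.subset_span ⟨t, rfl⟩
    have := W.sub_mem h1 h2
    simpa using this
  set z0 := ∑ v ∈ V, (v - e t) with hz0
  have hz0W : z0 ∈ W := W.sum_mem hWmem
  have hz0ne : z0 ≠ 0 := by
    obtain ⟨f, hf⟩ := h.exposed (e t) (h.mem t)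
    intro h0
    have h1 : f z0 < 0 := by
      rw [hz0, map_sum]
      apply Finset.sum_neg'
      · intro v hv
        rw [map_sub]
        by_cases hvt : v = e t
        · rw [hvt]; simp
        · linarith [hf v hv hvt]
      · refine ⟨e (u 0), h.mem _, ?_⟩
        rw [map_sub]
        have := hf (e (u 0)) (h.mem _) (fun hh => hut 0 (h.inj hh))
        linarith
    rw [h0, map_zero] at h1
    exact lt_irrefl _ h1
  obtain ⟨Φ, hΦ⟩ := exists_proj W hdim z0 hz0W hz0ne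
  apply hK (fun i => Φ (e (u i) - e t)) (fun j => Φ (e (w j) - e t)) (fun i j => Φ (e (m i j) - e t))
  intro i j i' j' hii hjj a ha b hb
  obtain ⟨a', ha', haeq⟩ : ∃ a', (a' = u i ∨ a' = w j) ∧ a = Φ (e a' - e t) := by
    rcases ha with rfl | rfl
    · exact ⟨u i, Or.inl rfl, rfl⟩
    · exact ⟨w j, Or.inr rfl, rfl⟩
  obtain ⟨b', hb', hbeq⟩ : ∃ b', (b' = u i' ∨ b' = w j') ∧ b = Φ (e b' - e t) := by
    rcases hb with rfl | rfl
    · exact ⟨u i', Or.inl rfl, rfl⟩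
    · exact ⟨w j', Or.inr rfl, rfl⟩
  obtain ⟨A, hA, hA1, hA2, hA3, hA4⟩ := hface i j a' ha'
  obtain ⟨B, hB, hB1, hB2, hB3, hB4⟩ := hface i' j' b' hb'
  -- non-membership
  have key : ∀ (k l k' l' : Fin 3) (d : L), k ≠ k' → l ≠ l' → (d = u k ∨ d = w l ∨ d = m k l) →
      ¬ (d = m k' l' ∨ d = u k' ∨ d = w l' ∨ d = t) := by
    intro k l k' l' d hk hl hd hd'
    rcases hd with rfl | rfl | rfl
    · rcases hd' with h1 | h1 | h1 | h1
      · exact hum _ _ _ h1
      · exact hu _ _ hk h1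
      · exact huw _ _ h1
      · exact hut _ h1
    · rcases hd' with h1 | h1 | h1 | h1
      · exact hwm _ _ _ h1
      · exact huw _ _ h1.symm
      · exact hw _ _ hl h1
      · exact hwt _ h1
    · rcases hd' with h1 | h1 | h1 | h1
      · exact hmm _ _ _ _ hk h1
      · exact hum _ _ _ h1.symm
      · exact hwm _ _ _ h1.symm
      · exact hmt _ _ h1
  have n1 : e a' ∉ B := fun hh => key i j i' j' a' hii hjj
    (by rcases ha' with h1 | h1 <;> simp [h1]) (hB4 _ hh)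
  have n2 : e (m i j) ∉ B := fun hh => key i j i' j' _ hii hjj (Or.inr (Or.inr rfl)) (hB4 _ hh)
  have n3 : e b' ∉ A := fun hh => key i' j' i j b' hii.symm hjj.symm
    (by rcases hb' with h1 | h1 <;> simp [h1]) (hA4 _ hh)
  have n4 : e (m i' j') ∉ A := fun hh => key i' j' i j _ hii.symm hjj.symm (Or.inr (Or.inr rfl)) (hA4 _ hh)
  intro x y z s hx hy hz hs heq
  rw [haeq, hbeq] at heq
  have h0 : Φ (x • (e a' - e t) + y • (e (m i j) - e t) - (z • (e b' - e t) + s • (e (m i' j') - e t))) = 0 := by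
    rw [map_sub, map_add, map_add, map_smul, map_smul, map_smul, map_smul]
    rw [heq, sub_self]
  have hmem : x • (e a' - e t) + y • (e (m i j) - e t) - (z • (e b' - e t) + s • (e (m i' j') - e t)) ∈ W :=
    W.sub_mem (W.add_mem (W.smul_mem _ (hWmem _ (h.mem _))) (W.smul_mem _ (hWmem _ (h.mem _))))
      (W.add_mem (W.smul_mem _ (hWmem _ (h.mem _))) (W.smul_mem _ (hWmem _ (h.mem _))))
  obtain ⟨ρ, hρ⟩ := hΦ _ hmem h0
  exact nc_of_faces hA hB hA3 hB3 hA2 hA1 hB2 hB1 n1 n2 n3 n4 hx hy hz hs hρ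

end Pool.Agent.R579.Orn
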