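import Mathlib
import Pool.Agent.R579.Orn.Defs
import Pool.Agent.R579.Orn.Pre
import Pool.Agent.R579.Orn.Top

namespace Pool.Agent.R579.Orn

open Finset Relation

section conv
variable {n : ℕ}

lemma ext_subset (S : Finset (EuclideanSpace ℝ (Fin n))) : (convexHull ℝ (S : Set (EuclideanSpace ℝ (Fin n)))).extremePoints ℝ ⊆ (S : Set (EuclideanSpace ℝ (Fin n))) :=
  extremePoints_convexHull_subset

lemma ext_finite (S : Finset (EuclideanSpace ℝ (Fin n))) : ((convexHull ℝ (S : Set (EuclideanSpace ℝ (Fin n)))).extremePoints ℝ).Finite :=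
  S.finite_toSet.subset (ext_subset S)

lemma hull_ext (S : Finset (EuclideanSpace ℝ (Fin n))) :
    convexHull ℝ ((convexHull ℝ (S : Set (EuclideanSpace ℝ (Fin n)))).extremePoints ℝ) = convexHull ℝ (S : Set (EuclideanSpace ℝ (Fin n))) := by
  have h1 := closure_convexHull_extremePoints (s := convexHull ℝ (S : Set (EuclideanSpace ℝ (Fin n))))
    (S.finite_toSet.isCompact_convexHull ℝ) (convex_convexHull ℝ _)
  rw [IsClosed.closure_eq ((ext_finite S).isClosed_convexHull ℝ)] at h1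
  exact h1

lemma exposed_ext (S V : Finset (EuclideanSpace ℝ (Fin n))) (hV : ∀ x, x ∈ V ↔ x ∈ (convexHull ℝ (S : Set (EuclideanSpace ℝ (Fin n)))).extremePoints ℝ) :
    Exposed V := by
  intro x hx
  have hx' := (hV x).1 hx
  rw [(convex_convexHull ℝ _).mem_extremePoints_iff_mem_sdiff_convexHull_sdiff] at hx'
  have hVS : ∀ y ∈ V, y ∈ (S : Set (EuclideanSpace ℝ (Fin n))) := fun y hy => ext_subset S ((hV y).1 hy)
  have hnot : x ∉ convexHull ℝ ((V.erase x : Finset (EuclideanSpace ℝ (Fin n))) : Set (EuclideanSpace ℝ (Fin n))) := by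
    intro h
    apply hx'.2
    refine convexHull_mono ?_ h
    intro y hy
    rw [Finset.mem_coe, Finset.mem_erase] at hy
    exact ⟨subset_convexHull ℝ _ (hVS y hy.2), hy.1⟩
  obtain ⟨f, u, h1, h2⟩ := geometric_hahn_banach_closed_point (convex_convexHull ℝ _)
    ((Finset.finite_toSet (V.erase x)).isClosed_convexHull ℝ) hnot
  refine ⟨f.toLinearMap, fun y hy hyx => ?_⟩
  have := h1 y (subset_convexHull ℝ _ (by rw [Finset.mem_coe, Finset.mem_erase]; exact ⟨hyx, hy⟩))
  exact this.trans h2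

lemma faceSet_of_edge (S V : Finset (EuclideanSpace ℝ (Fin n))) (hV : ∀ x, x ∈ V ↔ x ∈ (convexHull ℝ (S : Set (EuclideanSpace ℝ (Fin n)))).extremePoints ℝ)
    {x y : (EuclideanSpace ℝ (Fin n))} (h : IsPolytopeEdge (convexHull ℝ (S : Set (EuclideanSpace ℝ (Fin n)))) x y) :
    FaceSet V {x, y} := by
  obtain ⟨hx, hy, hxy, hF⟩ := h
  obtain ⟨l, hl⟩ := hF ⟨x, left_mem_segment ℝ x y⟩
  have hxm : x ∈ {p ∈ convexHull ℝ (S : Set (EuclideanSpace ℝ (Fin n))) | ∀ q ∈ convexHull ℝ (S : Set (EuclideanSpace ℝ (Fin n))), l q ≤ l p} := by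
    rw [← hl]; exact left_mem_segment ℝ x y
  have hym : y ∈ {p ∈ convexHull ℝ (S : Set (EuclideanSpace ℝ (Fin n))) | ∀ q ∈ convexHull ℝ (S : Set (EuclideanSpace ℝ (Fin n))), l q ≤ l p} := by
    rw [← hl]; exact right_mem_segment ℝ x y
  have hlxy : l x = l y := le_antisymm (hym.2 x hxm.1) (hxm.2 y hym.1)
  refine ⟨?_, l.toLinearMap, l x, ?_, ?_⟩
  · intro v hv
    rw [Finset.mem_insert, Finset.mem_singleton] at hv
    rcases hv with rfl | rfl
    · exact (hV _).2 hx
    · exact (hV _).2 hy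
  · intro v hv
    rw [Finset.mem_insert, Finset.mem_singleton] at hv
    rcases hv with rfl | rfl
    · rfl
    · exact hlxy.symm
  · intro v hv hvn
    have hvP := (hV v).1 hv
    rcases lt_or_eq_of_le (hxm.2 v hvP.1) with h | h
    · exact h
    · exfalso
      have hvm : v ∈ {p ∈ convexHull ℝ (S : Set (EuclideanSpace ℝ (Fin n))) | ∀ q ∈ convexHull ℝ (S : Set (EuclideanSpace ℝ (Fin n))), l q ≤ l p} :=
        ⟨hvP.1, fun q hq => by rw [h]; exact hxm.2 q hq⟩
      rw [← hl] at hvm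
      apply hvn
      rw [Finset.mem_insert, Finset.mem_singleton]
      have h3 : v ∈ insert x (insert y (openSegment ℝ x y)) := by
        rw [insert_endpoints_openSegment]; exact hvm
      rcases h3 with h3 | h3 | h3
      · exact Or.inl h3
      · exact Or.inr h3
      · exact Or.inl (hvP.2 hxm.1 hym.1 h3).symm

lemma edge_of_faceSet (S V : Finset (EuclideanSpace ℝ (Fin n))) (hV : ∀ x, x ∈ V ↔ x ∈ (convexHull ℝ (S : Set (EuclideanSpace ℝ (Fin n)))).extremePoints ℝ)
    {x y : (EuclideanSpace ℝ (Fin n))} (hxy : x ≠ y) (h : FaceSet V {x, y}) :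
    IsPolytopeEdge (convexHull ℝ (S : Set (EuclideanSpace ℝ (Fin n)))) x y := by
  obtain ⟨hsub, f, k, h1, h2⟩ := h
  have hxV : x ∈ V := hsub (by simp)
  have hyV : y ∈ V := hsub (by simp)
  have hVset : ((V : Finset (EuclideanSpace ℝ (Fin n))) : Set (EuclideanSpace ℝ (Fin n))) = (convexHull ℝ (S : Set (EuclideanSpace ℝ (Fin n)))).extremePoints ℝ := by
    ext v; exact hV v
  have hP : convexHull ℝ (V : Set (EuclideanSpace ℝ (Fin n))) = convexHull ℝ (S : Set (EuclideanSpace ℝ (Fin n))) := by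
    rw [hVset]; exact hull_ext S
  have hfx : f x = k := h1 x (by simp)
  have hfy : f y = k := h1 y (by simp)
  have hle : ∀ v ∈ V, f v ≤ k := by
    intro v hv
    by_cases hv' : v ∈ ({x, y} : Finset (EuclideanSpace ℝ (Fin n)))
    · exact (h1 v hv').le
    · exact (h2 v hv hv').le
  refine ⟨(hV x).1 hxV, (hV y).1 hyV, hxy, fun _ => ⟨f.toContinuousLinearMap, ?_⟩⟩
  have hleP : ∀ p ∈ convexHull ℝ (S : Set (EuclideanSpace ℝ (Fin n))), f p ≤ k := by
    intro p hp
    rw [← hP] at hp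
    have : convexHull ℝ (V : Set (EuclideanSpace ℝ (Fin n))) ⊆ {p | f p ≤ k} :=
      convexHull_min (fun v hv => hle v hv) (convex_halfSpace_le f.isLinear k)
    exact this hp
  have hxP : x ∈ convexHull ℝ (S : Set (EuclideanSpace ℝ (Fin n))) := ((hV x).1 hxV).1
  have hyP : y ∈ convexHull ℝ (S : Set (EuclideanSpace ℝ (Fin n))) := ((hV y).1 hyV).1
  apply Set.Subset.antisymm
  · intro p hp
    have hpP : p ∈ convexHull ℝ (S : Set (EuclideanSpace ℝ (Fin n))) := (convex_convexHull ℝ _).segment_subset hxP hyP hp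
    refine ⟨hpP, fun q hq => ?_⟩
    show f q ≤ f p
    obtain ⟨a, b, ha, hb, hab, rfl⟩ := hp
    rw [map_add, map_smul, map_smul, hfx, hfy]
    simp only [smul_eq_mul]
    have h5 := hleP q hq
    have h6 : a * k + b * k = k := by rw [← add_mul, hab, one_mul]
    linarith
  · rintro p ⟨hpP, hp⟩
    have hpk : f p = k := le_antisymm (hleP p hpP) (by have := hp x hxP; rw [← hfx]; exact this)
    rw [← hP, Finset.convexHull_eq] at hpP
    obtain ⟨w, hw0, hw1, hwp⟩ := hpP
    rw [Finset.centerMass_eq_of_sum_1 _ _ hw1] at hwp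
    simp only [id] at hwp
    -- weights vanish off {x, y}
    have hsum : ∑ v ∈ V, w v * (k - f v) = 0 := by
      have e1 : f p = ∑ v ∈ V, w v * f v := by
        rw [← hwp, map_sum]
        simp [map_smul]
      simp only [mul_sub]
      rw [Finset.sum_sub_distrib, ← Finset.sum_mul, hw1, ← e1, hpk]; ring
    have hzero : ∀ v ∈ V, v ∉ ({x, y} : Finset (EuclideanSpace ℝ (Fin n))) → w v = 0 := by
      intro v hv hvn
      have h3 := (Finset.sum_eq_zero_iff_of_nonneg (fun v hv => mul_nonneg (hw0 v hv)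
        (by linarith [hle v hv]))).1 hsum v hv
      rcases mul_eq_zero.1 h3 with h4 | h4
      · exact h4
      · have := h2 v hv hvn; linarith
    have hsum2 : ∑ v ∈ V, w v • v = w x • x + w y • y := by
      rw [← Finset.sum_subset hsub (fun v hv hvn => by rw [hzero v hv hvn, zero_smul]),
        Finset.sum_pair hxy]
    have hsum3 : w x + w y = 1 := by
      rw [← hw1, ← Finset.sum_subset hsub (fun v hv hvn => hzero v hv hvn), Finset.sum_pair hxy]
    refine ⟨w x, w y, hw0 x hxV, hw0 y hyV, hsum3, ?_⟩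
    rw [← hsum2, hwp]

end conv

open Classical in
theorem main (hK : NoK33) : ¬ ∃ (n : ℕ) (S : Finset (EuclideanSpace ℝ (Fin n)))
    (c : EuclideanSpace ℝ (Fin n) →ₗ[ℝ] ℝ), RealizedBy K3 S c := by
  rintro ⟨n, S, c, hc, e, he⟩
  set V : Finset (EuclideanSpace ℝ (Fin n)) := (ext_finite S).toFinset with hVdef
  have hV : ∀ x, x ∈ V ↔ x ∈ (convexHull ℝ (S : Set (EuclideanSpace ℝ (Fin n)))).extremePoints ℝ := by
    intro x; rw [hVdef, Set.Finite.mem_toFinset]
  have hup : (fun x y => IsPolytopeEdge (convexHull ℝ (S : Set (EuclideanSpace ℝ (Fin n)))) x y ∧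
          c x < c y) = Up V c := by
    funext x y
    apply propext
    constructor
    · rintro ⟨h1, h2⟩
      exact ⟨faceSet_of_edge S V hV h1, h2⟩
    · rintro ⟨h1, h2⟩
      exact ⟨edge_of_faceSet S V hV (by rintro rfl; exact lt_irrefl _ h2) h1, h2⟩
  have hR : Real (Ornamentations K3) V c (fun O => (e O : EuclideanSpace ℝ (Fin n))) := by
    refine ⟨exposed_ext S V hV, ?_, ?_, ?_, ?_, ?_⟩
    · intro x y hxy hF
      exact hc x y (edge_of_faceSet S V hV hxy hF)
    · intro a b hab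
      exact e.injective (Subtype.ext hab)
    · intro a
      exact (hV _).2 (e a).2
    · intro x hx
      obtain ⟨a, ha⟩ := e.surjective ⟨x, (hV x).1 hx⟩
      exact ⟨a, by show (e a : EuclideanSpace ℝ (Fin n)) = x; rw [ha]⟩
    · intro a b
      rw [← hup]
      exact he a b
  have hdim := hR.dim_le_four (MM 0 0) Z T PP QQ (U 0) (W 0) hne hcomp (fun d h1 h2 => hinf d h1 h2)
    (fun d h1 h2 => hsup 0 0 d h1 h2)
  exact hR.top_contra hK (MM 0 0) T hdim U W MM
    (fun i i' h => ofM_ne _ _ (d1 i i' h)) (fun i i' h => ofM_ne _ _ (d2 i i' h))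
    (fun i j => ofM_ne _ _ (d3 i j)) (fun i k l => ofM_ne _ _ (d4 i k l))
    (fun i k l => ofM_ne _ _ (d5 i k l)) (fun i j i' j' h => ofM_ne _ _ (d6 i j i' j' h))
    (fun i => ofM_ne _ _ (d7 i)) (fun i => ofM_ne _ _ (d8 i)) (fun i j => ofM_ne _ _ (d9 i j))
    hcu hcw hIci hsup

end Pool.Agent.R579.Orn
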