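import Mathlib
import Pool.Agent.R579.Orn.Top

namespace Pool.Agent.R579.Orn

/-- 3 by 3 determinant -/
def D (a b c : Fin 3 → ℝ) : ℝ :=
  a 0 * (b 1 * c 2 - b 2 * c 1) - a 1 * (b 0 * c 2 - b 2 * c 0) + a 2 * (b 0 * c 1 - b 1 * c 0)

def bX (p q r t : Bool) : Bool := (p && !q && !r && t) || (!p && q && r && !t)
def bI (a b c d : Bool) : Bool := (a && b && c && d) || (!a && !b && !c && !d)
/-- compatible with `x - y + z = 0`, `x, y, z` nonzero -/
def bok (x y z : Bool) : Bool := !(x && !y && z) && !(!x && y && !z)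
def xn (a b : Bool) : Bool := !(xor a b)

set_option maxRecDepth 100000 in
theorem L1bits : ∀ d123 d124 d125 d134 d135 d145 d234 d235 d245 d345 : Bool,
    bok (xn d123 d145) (xn d124 d135) (xn d125 d134) = true →
    bok (xn d123 d245) (xn d124 d235) (xn d125 d234) = true →
    bok (xn d123 d345) (xn d134 d235) (xn d135 d234) = true →
    bok (xn d124 d345) (xn d134 d245) (xn d145 d234) = true →
    bok (xn d125 d345) (xn d135 d245) (xn d145 d235) = true →
    xor (xor (bX d234 d134 d124 d123) (bX d245 d145 d125 d124)) (bX (!d235) (!d135) d123 d125) =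
      xor (bI d345 d145 (!d135) d134) (bI d345 d245 (!d235) d234) := by
  decide

def bq (x y z : Bool) : Bool := xor (xor (x && y) (x && z)) (y && z)

set_option maxRecDepth 100000 in
theorem K6bits : ∀ a12 a13 a23 k12 k13 k23 b1 b2 b3 : Bool,
    bok (xn b1 a23) (xn b2 a13) (xn b3 a12) = true →
    bok (xn b1 k23) (xn b2 k13) (xn b3 k12) = true →
    xor (xor (xor (bX (!k12) b2 a12 (!b1)) (bX k12 b1 (!a12) (!b2)))
      (xor (bX (!k13) b3 a13 (!b1)) (bX k13 b1 (!a13) (!b3))))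
      (xor (bX (!k23) b3 a23 (!b2)) (bX k23 b2 (!a23) (!b3))) =
    xor (xor true (bq a23 (!a13) a12)) (bq k23 (!k13) k12) := by
  decide

open Classical in
/-- sign bit -/
noncomputable def sb (x : ℝ) : Bool := decide (0 < x)

lemma sb_true {x : ℝ} : sb x = true ↔ 0 < x := by simp [sb]
lemma sb_false {x : ℝ} (hx : x ≠ 0) : sb x = false ↔ x < 0 := by
  rw [← Bool.not_eq_true, sb_true, not_lt]
  exact ⟨fun h => lt_of_le_of_ne h hx, fun h => h.le⟩

lemma sb_neg {x : ℝ} (hx : x ≠ 0) : sb (-x) = !(sb x) := by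
  rcases lt_or_gt_of_ne hx with h | h
  · rw [(sb_false hx).2 h, sb_true.2 (by linarith : 0 < -x)]; rfl
  · rw [sb_true.2 h, (sb_false (neg_ne_zero.2 hx)).2 (by linarith)]; rfl

lemma sb_mul {x y : ℝ} (hx : x ≠ 0) (hy : y ≠ 0) : sb (x * y) = xn (sb x) (sb y) := by
  rcases lt_or_gt_of_ne hx with h | h <;> rcases lt_or_gt_of_ne hy with h' | h'
  · rw [(sb_false hx).2 h, (sb_false hy).2 h', sb_true.2 (mul_pos_of_neg_of_neg h h')]; rfl
  · rw [(sb_false hx).2 h, sb_true.2 h', (sb_false (mul_ne_zero hx hy)).2 (mul_neg_of_neg_of_pos h h')]; rfl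
  · rw [sb_true.2 h, (sb_false hy).2 h', (sb_false (mul_ne_zero hx hy)).2 (mul_neg_of_pos_of_neg h h')]; rfl
  · rw [sb_true.2 h, sb_true.2 h', sb_true.2 (mul_pos h h')]; rfl

lemma bok_of {a b c d e f : ℝ} (ha : a ≠ 0) (hb : b ≠ 0) (hc : c ≠ 0) (hd : d ≠ 0) (he : e ≠ 0)
    (hf : f ≠ 0) (h : a * b - c * d + e * f = 0) :
    bok (xn (sb a) (sb b)) (xn (sb c) (sb d)) (xn (sb e) (sb f)) = true := by
  rw [← sb_mul ha hb, ← sb_mul hc hd, ← sb_mul he hf]
  have h1 := mul_ne_zero ha hb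
  have h2 := mul_ne_zero hc hd
  have h3 := mul_ne_zero he hf
  rcases lt_or_gt_of_ne h1 with g1 | g1 <;> rcases lt_or_gt_of_ne h2 with g2 | g2 <;>
    rcases lt_or_gt_of_ne h3 with g3 | g3
  all_goals first
    | (exfalso; linarith)
    | skip
  · rw [(sb_false h1).2 g1, (sb_false h2).2 g2, (sb_false h3).2 g3]; rfl
  · rw [(sb_false h1).2 g1, (sb_false h2).2 g2, sb_true.2 g3]; rfl
  · rw [(sb_false h1).2 g1, sb_true.2 g2, sb_true.2 g3]; rfl
  · rw [sb_true.2 g1, (sb_false h2).2 g2, (sb_false h3).2 g3]; rfl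
  · rw [sb_true.2 g1, sb_true.2 g2, (sb_false h3).2 g3]; rfl
  · rw [sb_true.2 g1, sb_true.2 g2, sb_true.2 g3]; rfl

/-- crossing bit of the arcs `a b` and `c d` -/
noncomputable def X (a b c d : Fin 3 → ℝ) : Bool :=
  bX (sb (D b c d)) (sb (D a c d)) (sb (D a b d)) (sb (D a b c))

/-- `p` is in the open cone of `v, v', w` -/
noncomputable def In (p v v' w : Fin 3 → ℝ) : Bool :=
  bI (sb (D v v' w)) (sb (D p v' w)) (sb (D v p w)) (sb (D v v' p))

theorem L1 (p q v v' w : Fin 3 → ℝ)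
    (h123 : D p q v ≠ 0) (h124 : D p q v' ≠ 0) (h125 : D p q w ≠ 0) (h134 : D p v v' ≠ 0)
    (h135 : D p v w ≠ 0) (h145 : D p v' w ≠ 0) (h234 : D q v v' ≠ 0) (h235 : D q v w ≠ 0)
    (h245 : D q v' w ≠ 0) (h345 : D v v' w ≠ 0) :
    xor (xor (X p q v v') (X p q v' w)) (X p q w v) = xor (In p v v' w) (In q v v' w) := by
  have g1 := bok_of h123 h145 h124 h135 h125 h134 (by unfold D; ring)
  have g2 := bok_of h123 h245 h124 h235 h125 h234 (by unfold D; ring)
  have g3 := bok_of h123 h345 h134 h235 h135 h234 (by unfold D; ring)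
  have g4 := bok_of h124 h345 h134 h245 h145 h234 (by unfold D; ring)
  have g5 := bok_of h125 h345 h135 h245 h145 h235 (by unfold D; ring)
  have h := L1bits _ _ _ _ _ _ _ _ _ _ g1 g2 g3 g4 g5
  have e1 : D q w v = -D q v w := by unfold D; ring
  have e2 : D p w v = -D p v w := by unfold D; ring
  have e3 : D v p w = -D p v w := by unfold D; ring
  have e4 : D v v' p = D p v v' := by unfold D; ring
  have e5 : D v q w = -D q v w := by unfold D; ring
  have e6 : D v v' q = D q v v' := by unfold D; ring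
  unfold X In
  rw [e1, e2, e3, e4, e5, e6, sb_neg h235, sb_neg h135]
  exact h

theorem X_swap (a b c d : Fin 3 → ℝ) : X a b c d = X c d a b := by
  unfold X
  have e1 : D d a b = D a b d := by unfold D; ring
  have e2 : D c a b = D a b c := by unfold D; ring
  have e3 : D c d b = D b c d := by unfold D; ring
  have e4 : D c d a = D a c d := by unfold D; ring
  rw [e1, e2, e3, e4]
  generalize sb (D a b d) = r
  generalize sb (D a b c) = t
  generalize sb (D b c d) = p
  generalize sb (D a c d) = q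
  revert p q r t; decide

theorem X_symm (a b c d : Fin 3 → ℝ) (h1 : D a b d ≠ 0) (h2 : D a b c ≠ 0) : X a b c d = X b a c d := by
  unfold X
  have e1 : D b a d = -D a b d := by unfold D; ring
  have e2 : D b a c = -D a b c := by unfold D; ring
  rw [e1, e2, sb_neg h1, sb_neg h2]
  generalize sb (D a b d) = r
  generalize sb (D a b c) = t
  generalize sb (D b c d) = p
  generalize sb (D a c d) = q
  revert p q r t; decide

theorem X_of_NC (a b c d : Fin 3 → ℝ) (h : NC a b c d) (h1 : D b c d ≠ 0) (h2 : D a c d ≠ 0)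
    (h3 : D a b d ≠ 0) (h4 : D a b c ≠ 0) : X a b c d = false := by
  have key : D b c d • a + (-D a c d) • b = (-D a b d) • c + D a b c • d := by
    funext i
    fin_cases i <;> (simp [D]; ring)
  rw [← Bool.not_eq_true]
  intro hX
  unfold X bX at hX
  rw [Bool.or_eq_true] at hX
  rcases hX with hX | hX
  · simp only [Bool.and_eq_true, Bool.not_eq_true'] at hX
    obtain ⟨⟨⟨x1, x2⟩, x3⟩, x4⟩ := hX
    rw [sb_true] at x1 x4
    rw [sb_false h2] at x2
    rw [sb_false h3] at x3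
    have := h _ _ _ _ x1.le (by linarith) (by linarith) x4.le key
    exact h1 this.1
  · simp only [Bool.and_eq_true, Bool.not_eq_true'] at hX
    obtain ⟨⟨⟨x1, x2⟩, x3⟩, x4⟩ := hX
    rw [sb_true] at x2 x3
    rw [sb_false h1] at x1
    rw [sb_false h4] at x4
    have key' : (-D b c d) • a + (D a c d) • b = (D a b d) • c + (-D a b c) • d := by
      have := congrArg Neg.neg key
      simp only [neg_add, neg_smul, neg_neg] at this ⊢
      exact this
    have := h _ _ _ _ (by linarith) (by linarith) (by linarith) (by linarith) key'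
    exact h2 this.2.1

/-- contribution of a pair of rows -/
theorem K6pair (a k w1 w2 w3 : Fin 3 → ℝ)
    (a12 : D a w1 w2 ≠ 0) (a13 : D a w1 w3 ≠ 0) (a23 : D a w2 w3 ≠ 0)
    (k12 : D k w1 w2 ≠ 0) (k13 : D k w1 w3 ≠ 0) (k23 : D k w2 w3 ≠ 0)
    (b1 : D a k w1 ≠ 0) (b2 : D a k w2 ≠ 0) (b3 : D a k w3 ≠ 0) :
    xor (xor (xor (X a w1 k w2) (X a w2 k w1)) (xor (X a w1 k w3) (X a w3 k w1)))
      (xor (X a w2 k w3) (X a w3 k w2)) =
    xor (xor true (bq (sb (D a w2 w3)) (!(sb (D a w1 w3))) (sb (D a w1 w2))))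
      (bq (sb (D k w2 w3)) (!(sb (D k w1 w3))) (sb (D k w1 w2))) := by
  have g1 := bok_of b1 a23 b2 a13 b3 a12 (by unfold D; ring)
  have g2 := bok_of b1 k23 b2 k13 b3 k12 (by unfold D; ring)
  have h := K6bits _ _ _ _ _ _ _ _ _ g1 g2
  have e1 : D w1 k w2 = -D k w1 w2 := by unfold D; ring
  have e2 : D w2 k w1 = D k w1 w2 := by unfold D; ring
  have e3 : D w1 k w3 = -D k w1 w3 := by unfold D; ring
  have e4 : D w3 k w1 = D k w1 w3 := by unfold D; ring
  have e5 : D w2 k w3 = -D k w2 w3 := by unfold D; ring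
  have e6 : D w3 k w2 = D k w2 w3 := by unfold D; ring
  have f1 : D a w1 k = -D a k w1 := by unfold D; ring
  have f2 : D a w2 k = -D a k w2 := by unfold D; ring
  have f3 : D a w3 k = -D a k w3 := by unfold D; ring
  have f4 : D a w2 w1 = -D a w1 w2 := by unfold D; ring
  have f5 : D a w3 w1 = -D a w1 w3 := by unfold D; ring
  have f6 : D a w3 w2 = -D a w2 w3 := by unfold D; ring
  unfold X
  rw [e1, e2, e3, e4, e5, e6, f1, f2, f3, f4, f5, f6, sb_neg k12, sb_neg k13, sb_neg k23, sb_neg b1,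
    sb_neg b2, sb_neg b3, sb_neg a12, sb_neg a13, sb_neg a23]
  exact h

end Pool.Agent.R579.Orn
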