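import Mathlib
import Pool.Agent.R579.Orn.K33a

namespace Pool.Agent.R579.Orn

abbrev Idx := Fin 3 ⊕ Fin 3 ⊕ (Fin 3 × Fin 3)

def toZ (b : Bool) : ZMod 2 := if b then 1 else 0

lemma toZ_xor (a b : Bool) : toZ (xor a b) = toZ a + toZ b := by
  revert a b; decide

theorem formula (vec : Idx → (Fin 3 → ℝ))
    (hgen : ∀ a b c, a ≠ b → a ≠ c → b ≠ c → D (vec a) (vec b) (vec c) ≠ 0)
    (hNC : ∀ i j i' j', i ≠ i' → j ≠ j' → ∀ a, (a = Sum.inl i ∨ a = Sum.inr (Sum.inl j)) →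
      ∀ b, (b = Sum.inl i' ∨ b = Sum.inr (Sum.inl j')) →
        NC (vec a) (vec (Sum.inr (Sum.inr (i, j)))) (vec b) (vec (Sum.inr (Sum.inr (i', j')))))
    (i j k l : Fin 3) (hik : i ≠ k) (hjl : j ≠ l) :
    X (vec (Sum.inl i)) (vec (Sum.inr (Sum.inl j))) (vec (Sum.inl k)) (vec (Sum.inr (Sum.inl l))) =
      xor (xor (In (vec (Sum.inl k)) (vec (Sum.inl i)) (vec (Sum.inr (Sum.inr (i, j)))) (vec (Sum.inr (Sum.inl j))))
        (In (vec (Sum.inr (Sum.inl l))) (vec (Sum.inl i)) (vec (Sum.inr (Sum.inr (i, j)))) (vec (Sum.inr (Sum.inl j)))))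
        (xor (In (vec (Sum.inl i)) (vec (Sum.inl k)) (vec (Sum.inr (Sum.inr (k, l)))) (vec (Sum.inr (Sum.inl l))))
        (In (vec (Sum.inr (Sum.inl j))) (vec (Sum.inl k)) (vec (Sum.inr (Sum.inr (k, l)))) (vec (Sum.inr (Sum.inl l))))) := by
  have hki := hik.symm
  have hlj := hjl.symm
  -- abbreviations
  set Ui := (Sum.inl i : Idx) with hUi
  set Wj := (Sum.inr (Sum.inl j) : Idx) with hWj
  set Uk := (Sum.inl k : Idx) with hUk
  set Wl := (Sum.inr (Sum.inl l) : Idx) with hWl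
  set Mi := (Sum.inr (Sum.inr (i, j)) : Idx) with hMi
  set Mk := (Sum.inr (Sum.inr (k, l)) : Idx) with hMk
  have n1 : Ui ≠ Uk := by simp [hUi, hUk, hik]
  have n2 : Ui ≠ Wj := by simp [hUi, hWj]
  have n3 : Ui ≠ Wl := by simp [hUi, hWl]
  have n4 : Ui ≠ Mi := by simp [hUi, hMi]
  have n5 : Ui ≠ Mk := by simp [hUi, hMk]
  have n6 : Uk ≠ Wj := by simp [hUk, hWj]
  have n7 : Uk ≠ Wl := by simp [hUk, hWl]
  have n8 : Uk ≠ Mi := by simp [hUk, hMi]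
  have n9 : Uk ≠ Mk := by simp [hUk, hMk]
  have n10 : Wj ≠ Wl := by simp [hWj, hWl, hjl]
  have n11 : Wj ≠ Mi := by simp [hWj, hMi]
  have n12 : Wj ≠ Mk := by simp [hWj, hMk]
  have n13 : Wl ≠ Mi := by simp [hWl, hMi]
  have n14 : Wl ≠ Mk := by simp [hWl, hMk]
  have n15 : Mi ≠ Mk := by simp [hMi, hMk, hik]
  -- vanishing crossings
  have z1 : X (vec Uk) (vec Mk) (vec Ui) (vec Mi) = false :=
    X_of_NC _ _ _ _ (hNC k l i j hki hlj _ (Or.inl rfl) _ (Or.inl rfl))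
      (hgen _ _ _ n5.symm n15.symm n4) (hgen _ _ _ n1.symm n8 n4) (hgen _ _ _ n9 n8 n15.symm)
      (hgen _ _ _ n9 n1.symm n5.symm)
  have z2 : X (vec Uk) (vec Mk) (vec Mi) (vec Wj) = false := by
    rw [X_swap, X_symm _ _ _ _ (hgen _ _ _ n11.symm n15 n12) (hgen _ _ _ n11.symm n8.symm n6.symm), X_swap]
    exact X_of_NC _ _ _ _ (hNC k l i j hki hlj _ (Or.inl rfl) _ (Or.inr rfl))
      (hgen _ _ _ n12.symm n15.symm n11) (hgen _ _ _ n6 n8 n11) (hgen _ _ _ n9 n8 n15.symm)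
      (hgen _ _ _ n9 n6 n12.symm)
  have z3 : X (vec Mk) (vec Wl) (vec Ui) (vec Mi) = false := by
    rw [X_symm _ _ _ _ (hgen _ _ _ n14.symm n15.symm n13) (hgen _ _ _ n14.symm n5.symm n3.symm)]
    exact X_of_NC _ _ _ _ (hNC k l i j hki hlj _ (Or.inr rfl) _ (Or.inl rfl))
      (hgen _ _ _ n5.symm n15.symm n4) (hgen _ _ _ n3.symm n13 n4) (hgen _ _ _ n14 n13 n15.symm)
      (hgen _ _ _ n14 n3.symm n5.symm)
  have z4 : X (vec Mk) (vec Wl) (vec Mi) (vec Wj) = false := by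
    rw [X_symm _ _ _ _ (hgen _ _ _ n14.symm n12.symm n10.symm) (hgen _ _ _ n14.symm n15.symm n13),
      X_swap, X_symm _ _ _ _ (hgen _ _ _ n11.symm n15 n12) (hgen _ _ _ n11.symm n13.symm n10), X_swap]
    exact X_of_NC _ _ _ _ (hNC k l i j hki hlj _ (Or.inr rfl) _ (Or.inr rfl))
      (hgen _ _ _ n12.symm n15.symm n11) (hgen _ _ _ n10.symm n13 n11) (hgen _ _ _ n14 n13 n15.symm)
      (hgen _ _ _ n14 n10.symm n12.symm)
  -- L1 three times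
  have A := L1 (vec Uk) (vec Mk) (vec Ui) (vec Mi) (vec Wj)
    (hgen _ _ _ n9 n1.symm n5.symm) (hgen _ _ _ n9 n8 n15.symm) (hgen _ _ _ n9 n6 n12.symm)
    (hgen _ _ _ n1.symm n8 n4) (hgen _ _ _ n1.symm n6 n2) (hgen _ _ _ n8 n6 n11.symm)
    (hgen _ _ _ n5.symm n15.symm n4) (hgen _ _ _ n5.symm n12.symm n2)
    (hgen _ _ _ n15.symm n12.symm n11.symm) (hgen _ _ _ n4 n2 n11.symm)
  have B := L1 (vec Mk) (vec Wl) (vec Ui) (vec Mi) (vec Wj)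
    (hgen _ _ _ n14.symm n5.symm n3.symm) (hgen _ _ _ n14.symm n15.symm n13)
    (hgen _ _ _ n14.symm n12.symm n10.symm)
    (hgen _ _ _ n5.symm n15.symm n4) (hgen _ _ _ n5.symm n12.symm n2) (hgen _ _ _ n15.symm n12.symm n11.symm)
    (hgen _ _ _ n3.symm n13 n4) (hgen _ _ _ n3.symm n10.symm n2)
    (hgen _ _ _ n13 n10.symm n11.symm) (hgen _ _ _ n4 n2 n11.symm)
  have C := L1 (vec Wj) (vec Ui) (vec Uk) (vec Mk) (vec Wl)
    (hgen _ _ _ n2.symm n6.symm n1) (hgen _ _ _ n2.symm n12 n5) (hgen _ _ _ n2.symm n10 n3)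
    (hgen _ _ _ n6.symm n12 n9) (hgen _ _ _ n6.symm n10 n7) (hgen _ _ _ n12 n10 n14.symm)
    (hgen _ _ _ n1 n5 n9) (hgen _ _ _ n1 n3 n7) (hgen _ _ _ n5 n3 n14.symm) (hgen _ _ _ n9 n7 n14.symm)
  rw [z1, z2] at A
  rw [z3, z4] at B
  rw [X_swap (vec Wj) (vec Ui) (vec Uk) (vec Mk), X_swap (vec Wj) (vec Ui) (vec Mk) (vec Wl)] at C
  have S : X (vec Ui) (vec Wj) (vec Uk) (vec Wl) = X (vec Wj) (vec Ui) (vec Wl) (vec Uk) := by
    rw [X_symm _ _ _ _ (hgen _ _ _ n2 n3 n10) (hgen _ _ _ n2 n1 n6.symm), X_swap,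
      X_symm _ _ _ _ (hgen _ _ _ n7 n1.symm n3.symm) (hgen _ _ _ n7 n6 n10.symm), X_swap]
  rw [S]
  revert A B C
  generalize X (vec Uk) (vec Mk) (vec Wj) (vec Ui) = x1
  generalize X (vec Mk) (vec Wl) (vec Wj) (vec Ui) = x2
  generalize X (vec Wj) (vec Ui) (vec Wl) (vec Uk) = x3
  generalize In (vec Uk) (vec Ui) (vec Mi) (vec Wj) = y1
  generalize In (vec Mk) (vec Ui) (vec Mi) (vec Wj) = y2
  generalize In (vec Wl) (vec Ui) (vec Mi) (vec Wj) = y3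
  generalize In (vec Wj) (vec Uk) (vec Mk) (vec Wl) = y4
  generalize In (vec Ui) (vec Uk) (vec Mk) (vec Wl) = y5
  revert x1 x2 x3 y1 y2 y3 y4 y5
  decide

theorem gen_K33 (vec : Idx → (Fin 3 → ℝ))
    (hgen : ∀ a b c, a ≠ b → a ≠ c → b ≠ c → D (vec a) (vec b) (vec c) ≠ 0)
    (hNC : ∀ i j i' j', i ≠ i' → j ≠ j' → ∀ a, (a = Sum.inl i ∨ a = Sum.inr (Sum.inl j)) →
      ∀ b, (b = Sum.inl i' ∨ b = Sum.inr (Sum.inl j')) →
        NC (vec a) (vec (Sum.inr (Sum.inr (i, j)))) (vec b) (vec (Sum.inr (Sum.inr (i', j'))))) :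
    False := by
  let zX : Fin 3 → Fin 3 → Fin 3 → Fin 3 → ZMod 2 := fun i j k l =>
    toZ (X (vec (Sum.inl i)) (vec (Sum.inr (Sum.inl j))) (vec (Sum.inl k)) (vec (Sum.inr (Sum.inl l))))
  let zP : Fin 3 → Fin 3 → Fin 3 → ZMod 2 := fun i j k =>
    toZ (In (vec (Sum.inl k)) (vec (Sum.inl i)) (vec (Sum.inr (Sum.inr (i, j)))) (vec (Sum.inr (Sum.inl j))))
  let zQ : Fin 3 → Fin 3 → Fin 3 → ZMod 2 := fun i j l =>
    toZ (In (vec (Sum.inr (Sum.inl l))) (vec (Sum.inl i)) (vec (Sum.inr (Sum.inr (i, j)))) (vec (Sum.inr (Sum.inl j))))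
  let R : Fin 3 → ZMod 2 := fun i =>
    toZ (bq (sb (D (vec (Sum.inl i)) (vec (Sum.inr (Sum.inl 1))) (vec (Sum.inr (Sum.inl 2)))))
      (!(sb (D (vec (Sum.inl i)) (vec (Sum.inr (Sum.inl 0))) (vec (Sum.inr (Sum.inl 2))))))
      (sb (D (vec (Sum.inl i)) (vec (Sum.inr (Sum.inl 0))) (vec (Sum.inr (Sum.inl 1))))))
  have F : ∀ i j k l, i ≠ k → j ≠ l → zX i j k l = (zP i j k + zQ i j l) + (zP k l i + zQ k l j) := by
    intro i j k l hik hjl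
    have := congrArg toZ (formula vec hgen hNC i j k l hik hjl)
    rw [toZ_xor, toZ_xor, toZ_xor] at this
    exact this
  have G : ∀ i k, i ≠ k → ((zX i 0 k 1 + zX i 1 k 0) + (zX i 0 k 2 + zX i 2 k 0)) + (zX i 1 k 2 + zX i 2 k 1) =
      (1 + R i) + R k := by
    intro i k hik
    have h01 : ∀ x y : Fin 3, x ≠ y → (Sum.inr (Sum.inl x) : Idx) ≠ Sum.inr (Sum.inl y) := by
      intro x y hxy h; simp at h; exact hxy h
    have hul : ∀ x y : Fin 3, (Sum.inl x : Idx) ≠ Sum.inr (Sum.inl y) := by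
      intro x y h; simp at h
    have huu : (Sum.inl i : Idx) ≠ Sum.inl k := by intro h; simp at h; exact hik h
    have h1 := K6pair (vec (Sum.inl i)) (vec (Sum.inl k)) (vec (Sum.inr (Sum.inl 0)))
      (vec (Sum.inr (Sum.inl 1))) (vec (Sum.inr (Sum.inl 2)))
      (hgen _ _ _ (hul _ _) (hul _ _) (h01 _ _ (by decide)))
      (hgen _ _ _ (hul _ _) (hul _ _) (h01 _ _ (by decide)))
      (hgen _ _ _ (hul _ _) (hul _ _) (h01 _ _ (by decide)))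
      (hgen _ _ _ (hul _ _) (hul _ _) (h01 _ _ (by decide)))
      (hgen _ _ _ (hul _ _) (hul _ _) (h01 _ _ (by decide)))
      (hgen _ _ _ (hul _ _) (hul _ _) (h01 _ _ (by decide)))
      (hgen _ _ _ huu (hul _ _) (hul _ _))
      (hgen _ _ _ huu (hul _ _) (hul _ _))
      (hgen _ _ _ huu (hul _ _) (hul _ _))
    have h2 := congrArg toZ h1
    simp only [toZ_xor] at h2
    have h3 : toZ true = 1 := rfl
    rw [h3] at h2
    exact h2
  have G01 := G 0 1 (by decide)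
  have G02 := G 0 2 (by decide)
  have G12 := G 1 2 (by decide)
  have h2 : (2 : ZMod 2) = 0 := by decide
  have hcon : (1 : ZMod 2) = 0 := by
    linear_combination F 0 0 1 1 (by decide) (by decide) + F 0 0 1 2 (by decide) (by decide) + F 0 1 1 0 (by decide) (by decide) + F 0 1 1 2 (by decide) (by decide) + F 0 2 1 0 (by decide) (by decide) + F 0 2 1 1 (by decide) (by decide) + F 0 0 2 1 (by decide) (by decide) + F 0 0 2 2 (by decide) (by decide) + F 0 1 2 0 (by decide) (by decide) + F 0 1 2 2 (by decide) (by decide) + F 0 2 2 0 (by decide) (by decide) + F 0 2 2 1 (by decide) (by decide) + F 1 0 2 1 (by decide) (by decide) + F 1 0 2 2 (by decide) (by decide) + F 1 1 2 0 (by decide) (by decide) + F 1 1 2 2 (by decide) (by decide) + F 1 2 2 0 (by decide) (by decide) + F 1 2 2 1 (by decide) (by decide) - G01 - G02 - G12 + (zP 0 0 1 + zP 0 0 2 + zP 0 1 1 + zP 0 1 2 + zP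 0 2 1 + zP 0 2 2 + zP 1 0 0 + zP 1 0 2 + zP 1 1 0 + zP 1 1 2 + zP 1 2 0 + zP 1 2 2 + zP 2 0 0 + zP 2 0 1 + zP 2 1 0 + zP 2 1 1 + zP 2 2 0 + zP 2 2 1 + zQ 0 0 1 + zQ 0 0 2 + zQ 0 1 0 + zQ 0 1 2 + zQ 0 2 0 + zQ 0 2 1 + zQ 1 0 1 + zQ 1 0 2 + zQ 1 1 0 + zQ 1 1 2 + zQ 1 2 0 + zQ 1 2 1 + zQ 2 0 1 + zQ 2 0 2 + zQ 2 1 0 + zQ 2 1 2 + zQ 2 2 0 + zQ 2 2 1 - 1 - R 0 - R 1 - R 2) * h2
  exact absurd hcon (by decide)

end Pool.Agent.R579.Orn
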