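import Mathlib
import Pool.Agent.R579.Orn.K33b

namespace Pool.Agent.R579.Orn

open Filter Topology

theorem NC_open (a m b m' : Fin 3 → ℝ) (h : NC a m b m') :
    ∃ δ : ℝ, 0 < δ ∧ ∀ a₁ m₁ b₁ m₁' : Fin 3 → ℝ, ‖a₁ - a‖ < δ → ‖m₁ - m‖ < δ → ‖b₁ - b‖ < δ →
      ‖m₁' - m'‖ < δ → NC a₁ m₁ b₁ m₁' := by
  have hK : IsCompact (stdSimplex ℝ (Fin 4)) := isCompact_stdSimplex ℝ (Fin 4)
  have hne : (stdSimplex ℝ (Fin 4)).Nonempty := ⟨_, single_mem_stdSimplex ℝ 0⟩
  let g : (Fin 4 → ℝ) → ℝ := fun l => ‖l 0 • a + l 1 • m - (l 2 • b + l 3 • m')‖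
  have hg : Continuous g := by fun_prop
  obtain ⟨l, hl, hmin⟩ := hK.exists_isMinOn hne hg.continuousOn
  have hgl : 0 < g l := by
    rcases lt_or_eq_of_le (norm_nonneg (l 0 • a + l 1 • m - (l 2 • b + l 3 • m'))) with h1 | h1
    · exact h1
    · exfalso
      have h2 := norm_eq_zero.1 h1.symm
      have h3 := sub_eq_zero.1 h2
      obtain ⟨e0, e1, e2, e3⟩ := h _ _ _ _ (hl.1 0) (hl.1 1) (hl.1 2) (hl.1 3) h3
      have h4 := hl.2
      rw [Fin.sum_univ_four, e0, e1, e2, e3] at h4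
      norm_num at h4
  refine ⟨g l, hgl, fun a₁ m₁ b₁ m₁' ha hm hb hm' x y z t hx hy hz ht heq => ?_⟩
  by_contra hcon
  have hS : 0 < x + y + z + t := by
    by_contra hS
    push Not at hS
    exact hcon ⟨by linarith, by linarith, by linarith, by linarith⟩
  set S := x + y + z + t with hSdef
  let l' : Fin 4 → ℝ := ![x / S, y / S, z / S, t / S]
  have hl' : l' ∈ stdSimplex ℝ (Fin 4) := by
    refine ⟨fun i => ?_, ?_⟩
    · fin_cases i
      · exact div_nonneg hx hS.le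
      · exact div_nonneg hy hS.le
      · exact div_nonneg hz hS.le
      · exact div_nonneg ht hS.le
    · rw [Fin.sum_univ_four]
      show x / S + y / S + z / S + t / S = 1
      rw [← add_div, ← add_div, ← add_div, div_self hS.ne']
  have h1 : g l ≤ g l' := hmin hl'
  have h2 : (x / S) • a₁ + (y / S) • m₁ - ((z / S) • b₁ + (t / S) • m₁') = 0 := by
    have : S⁻¹ • (x • a₁ + y • m₁) = S⁻¹ • (z • b₁ + t • m₁') := by rw [heq]
    rw [smul_add, smul_add, smul_smul, smul_smul, smul_smul, smul_smul] at this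
    rw [sub_eq_zero]
    have e : ∀ w : ℝ, w / S = S⁻¹ * w := fun w => by rw [div_eq_mul_inv, mul_comm]
    rw [e, e, e, e]; exact this
  have h3 : g l' < g l := by
    have e1 : (x / S) • a + (y / S) • m - ((z / S) • b + (t / S) • m') =
        -((x / S) • (a₁ - a)) + -((y / S) • (m₁ - m)) + (z / S) • (b₁ - b) + (t / S) • (m₁' - m') := by
      have : (x / S) • a + (y / S) • m - ((z / S) • b + (t / S) • m') =
        ((x / S) • a + (y / S) • m - ((z / S) • b + (t / S) • m')) -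
          ((x / S) • a₁ + (y / S) • m₁ - ((z / S) • b₁ + (t / S) • m₁')) := by rw [h2, sub_zero]
      rw [this]
      module
    have e2 : g l' ≤ (x / S) * ‖a₁ - a‖ + (y / S) * ‖m₁ - m‖ + (z / S) * ‖b₁ - b‖ + (t / S) * ‖m₁' - m'‖ := by
      show ‖(x / S) • a + (y / S) • m - ((z / S) • b + (t / S) • m')‖ ≤ _
      rw [e1]
      have n0 : ∀ (w : ℝ) (v : Fin 3 → ℝ), 0 ≤ w → ‖(w / S) • v‖ = (w / S) * ‖v‖ := by
        intro w v hw
        rw [norm_smul, Real.norm_of_nonneg (div_nonneg hw hS.le)]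
      calc _ ≤ ‖-((x / S) • (a₁ - a)) + -((y / S) • (m₁ - m)) + (z / S) • (b₁ - b)‖ + ‖(t / S) • (m₁' - m')‖ :=
            norm_add_le _ _
        _ ≤ ‖-((x / S) • (a₁ - a)) + -((y / S) • (m₁ - m))‖ + ‖(z / S) • (b₁ - b)‖ + ‖(t / S) • (m₁' - m')‖ := by
            gcongr; exact norm_add_le _ _
        _ ≤ ‖-((x / S) • (a₁ - a))‖ + ‖-((y / S) • (m₁ - m))‖ + ‖(z / S) • (b₁ - b)‖ + ‖(t / S) • (m₁' - m')‖ := by
            gcongr; exact norm_add_le _ _
        _ = _ := by rw [norm_neg, norm_neg, n0 _ _ hx, n0 _ _ hy, n0 _ _ hz, n0 _ _ ht]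
    refine lt_of_le_of_lt e2 ?_
    have hx' := div_nonneg hx hS.le
    have hy' := div_nonneg hy hS.le
    have hz' := div_nonneg hz hS.le
    have ht' := div_nonneg ht hS.le
    have hsum : x / S + y / S + z / S + t / S = 1 := by
      rw [← add_div, ← add_div, ← add_div, div_self hS.ne']
    -- maximum of the four norms is < g l
    set N := max (max ‖a₁ - a‖ ‖m₁ - m‖) (max ‖b₁ - b‖ ‖m₁' - m'‖) with hN
    have hNlt : N < g l := max_lt (max_lt ha hm) (max_lt hb hm')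
    have k1 : ‖a₁ - a‖ ≤ N := (le_max_left _ _).trans (le_max_left _ _)
    have k2 : ‖m₁ - m‖ ≤ N := (le_max_right _ _).trans (le_max_left _ _)
    have k3 : ‖b₁ - b‖ ≤ N := (le_max_left _ _).trans (le_max_right _ _)
    have k4 : ‖m₁' - m'‖ ≤ N := (le_max_right _ _).trans (le_max_right _ _)
    calc _ ≤ (x / S) * N + (y / S) * N + (z / S) * N + (t / S) * N := by gcongr
      _ = N := by rw [← add_mul, ← add_mul, ← add_mul, hsum, one_mul]
      _ < g l := hNlt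
  linarith

theorem NC_eventually (a m b m' va vm vb vm' : Fin 3 → ℝ) (h : NC a m b m') :
    ∀ᶠ ε in 𝓝[≠] (0 : ℝ), NC (a + ε • va) (m + ε • vm) (b + ε • vb) (m' + ε • vm') := by
  obtain ⟨δ, hδ, H⟩ := NC_open a m b m' h
  have key : ∀ p v : Fin 3 → ℝ, ∀ᶠ ε in 𝓝[≠] (0 : ℝ), ‖(p + ε • v) - p‖ < δ := by
    intro p v
    have hc : Continuous (fun ε : ℝ => ‖(p + ε • v) - p‖) := by fun_prop
    have h0 : ‖(p + (0 : ℝ) • v) - p‖ < δ := by simp [hδ]
    exact (hc.continuousAt.eventually (gt_mem_nhds h0)).filter_mono nhdsWithin_le_nhds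
  filter_upwards [key a va, key m vm, key b vb, key m' vm'] with ε h1 h2 h3 h4
  exact H _ _ _ _ h1 h2 h3 h4

theorem poly_eventually (d0 d1 d2 d3 : ℝ) (h : d3 ≠ 0) :
    ∀ᶠ ε in 𝓝[≠] (0 : ℝ), d0 + d1 * ε + d2 * ε ^ 2 + d3 * ε ^ 3 ≠ 0 := by
  classical
  let P : Polynomial ℝ := Polynomial.C d0 + Polynomial.C d1 * Polynomial.X +
    Polynomial.C d2 * Polynomial.X ^ 2 + Polynomial.C d3 * Polynomial.X ^ 3
  have hP : P ≠ 0 := by
    intro h0
    have : P.coeff 3 = 0 := by rw [h0]; simp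
    simp [P, Polynomial.coeff_X, Polynomial.coeff_C] at this
    exact h this
  have hfin : {x | P.IsRoot x}.Finite := Polynomial.finite_setOf_isRoot hP
  have hcl : IsClosed ({x | P.IsRoot x} \ {0}) := (hfin.subset Set.sdiff_subset).isClosed
  have hmem : ({x | P.IsRoot x} \ {0})ᶜ ∈ 𝓝 (0 : ℝ) := hcl.isOpen_compl.mem_nhds (by simp)
  have h1 : ∀ᶠ ε in 𝓝[≠] (0 : ℝ), ε ∈ ({x | P.IsRoot x} \ {0})ᶜ := mem_nhdsWithin_of_mem_nhds hmem
  have h2 : ∀ᶠ ε in 𝓝[≠] (0 : ℝ), ε ≠ 0 := eventually_mem_nhdsWithin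
  filter_upwards [h1, h2] with ε h3 h4 h5
  apply h3
  refine ⟨?_, h4⟩
  show P.IsRoot ε
  rw [Polynomial.IsRoot.def]
  simp [P]
  linarith

theorem D_eventually (a b c va vb vc : Fin 3 → ℝ) (h : D va vb vc ≠ 0) :
    ∀ᶠ ε in 𝓝[≠] (0 : ℝ), D (a + ε • va) (b + ε • vb) (c + ε • vc) ≠ 0 := by
  have h1 := poly_eventually (D a b c) (D va b c + D a vb c + D a b vc)
    (D va vb c + D va b vc + D a vb vc) (D va vb vc) h
  filter_upwards [h1] with ε h2 h3
  apply h2
  rw [← h3]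
  simp only [D, Pi.add_apply, Pi.smul_apply, smul_eq_mul]
  ring

theorem noK33 : NoK33 := by
  classical
  intro u w m h
  let vec : Idx → (Fin 3 → ℝ) := fun s => match s with
    | Sum.inl i => u i
    | Sum.inr (Sum.inl j) => w j
    | Sum.inr (Sum.inr (i, j)) => m i j
  let τ : Idx → ℝ := fun s => ((Fintype.equivFin Idx s : ℕ) : ℝ)
  have hτ : Function.Injective τ := by
    intro a b hab
    have h1 : ((Fintype.equivFin Idx a : ℕ) : ℝ) = ((Fintype.equivFin Idx b : ℕ) : ℝ) := hab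
    have h2 := Nat.cast_injective h1
    exact (Fintype.equivFin Idx).injective (Fin.ext h2)
  let ν : Idx → (Fin 3 → ℝ) := fun s => ![1, τ s, τ s ^ 2]
  have hν : ∀ a b c, a ≠ b → a ≠ c → b ≠ c → D (ν a) (ν b) (ν c) ≠ 0 := by
    intro a b c hab hac hbc
    have e : D (ν a) (ν b) (ν c) = (τ b - τ a) * (τ c - τ a) * (τ c - τ b) := by
      simp [D, ν]; ring
    rw [e]
    refine mul_ne_zero (mul_ne_zero ?_ ?_) ?_
    · exact sub_ne_zero.2 (fun hh => hab (hτ hh).symm)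
    · exact sub_ne_zero.2 (fun hh => hac (hτ hh).symm)
    · exact sub_ne_zero.2 (fun hh => hbc (hτ hh).symm)
  have hNC : ∀ i j i' j', i ≠ i' → j ≠ j' → ∀ a : Idx, (a = Sum.inl i ∨ a = Sum.inr (Sum.inl j)) →
      ∀ b : Idx, (b = Sum.inl i' ∨ b = Sum.inr (Sum.inl j')) →
        NC (vec a) (vec (Sum.inr (Sum.inr (i, j)))) (vec b) (vec (Sum.inr (Sum.inr (i', j')))) := by
    intro i j i' j' hi hj a ha b hb
    apply h i j i' j' hi hj
    · rcases ha with rfl | rfl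
      · exact Or.inl rfl
      · exact Or.inr rfl
    · rcases hb with rfl | rfl
      · exact Or.inl rfl
      · exact Or.inr rfl
  have ev1 : ∀ᶠ ε in 𝓝[≠] (0 : ℝ), ∀ a b c : Idx, a ≠ b → a ≠ c → b ≠ c →
      D (vec a + ε • ν a) (vec b + ε • ν b) (vec c + ε • ν c) ≠ 0 := by
    rw [eventually_all]; intro a
    rw [eventually_all]; intro b
    rw [eventually_all]; intro c
    rw [eventually_all]; intro h1
    rw [eventually_all]; intro h2
    rw [eventually_all]; intro h3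
    exact D_eventually _ _ _ _ _ _ (hν a b c h1 h2 h3)
  have ev2 : ∀ᶠ ε in 𝓝[≠] (0 : ℝ), ∀ i j i' j' : Fin 3, i ≠ i' → j ≠ j' → ∀ a : Idx,
      (a = Sum.inl i ∨ a = Sum.inr (Sum.inl j)) → ∀ b : Idx, (b = Sum.inl i' ∨ b = Sum.inr (Sum.inl j')) →
        NC (vec a + ε • ν a) (vec (Sum.inr (Sum.inr (i, j))) + ε • ν (Sum.inr (Sum.inr (i, j))))
          (vec b + ε • ν b) (vec (Sum.inr (Sum.inr (i', j'))) + ε • ν (Sum.inr (Sum.inr (i', j')))) := by
    rw [eventually_all]; intro i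
    rw [eventually_all]; intro j
    rw [eventually_all]; intro i'
    rw [eventually_all]; intro j'
    rw [eventually_all]; intro h1
    rw [eventually_all]; intro h2
    rw [eventually_all]; intro a
    rw [eventually_all]; intro ha
    rw [eventually_all]; intro b
    rw [eventually_all]; intro hb
    exact NC_eventually _ _ _ _ _ _ _ _ (hNC i j i' j' h1 h2 a ha b hb)
  obtain ⟨ε, h1, h2⟩ := (ev1.and ev2).exists
  exact gen_K33 (fun s => vec s + ε • ν s) h1 h2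

end Pool.Agent.R579.Orn
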